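import Pool.Agent.Lib.H60.UDef.Formulas
import Pool.Agent.Lib.CFT.D2

/-!
# H60R (S14399, Z[i]-rank one): definitions

`E_k : y² = x³ + k x` over a number field `F` containing `i`. `Ek k` its points, `iac` the automorphism
`(x, y) ↦ (-x, i y)`, `al` the descent map (`x` modulo squares). `Fc F v` the completion at the prime `v`,
`va v` its valuation. `Wl v c d`: the class of `d` modulo squares is in the local image of the curve
`y² = x³ + c² x` at `v`. `LS S d`: `d` has even order outside `S`.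
-/

set_option autoImplicit false

open NumberField IsDedekindDomain WeierstrassCurve WeierstrassCurve.Affine
open Pool.Agent.H60.UDef CFT
open scoped WithZero

namespace Pool.Agent.H60R

/-- The points of `y² = x³ + k x`. -/
abbrev Ek {F : Type} [Field F] (k : F) : Type := ((shortW k 0)⁄F).Point

section curve

variable {F : Type} [Field F] {k : F}

theorem ek_eqn {P : Ek k} {x y : F} (h : IsAt P x y) : y ^ 2 = x ^ 3 + k * x := by
  have := h.eqn
  simpa using this

theorem ek_nonsing [CharZero F] (hk : k ≠ 0) {x y : F} (h : y ^ 2 = x ^ 3 + k * x) :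
    ∃ P : Ek k, IsAt P x y := by
  refine isAt_of_eqn ?_ (by simpa using h)
  have : 4 * k ^ 3 ≠ 0 := mul_ne_zero (by norm_num) (pow_ne_zero 3 hk)
  simpa using this

open Classical in
/-- The automorphism `(x, y) ↦ (-x, i y)` (for `i² = -1`). -/
noncomputable def iac (i : F) (P : Ek k) : Ek k :=
  if h : ∃ (Q : Ek k) (x y : F), IsAt P x y ∧ IsAt Q (-x) (i * y) then h.choose else 0

theorem iac_zero (i : F) : iac i (0 : Ek k) = 0 := by
  unfold iac
  rw [dif_neg]
  rintro ⟨Q, x, y, h, -⟩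
  exact h.ne_zero rfl

theorem iac_isAt [CharZero F] (hk : k ≠ 0) {i : F} (hi : i ^ 2 = -1) {P : Ek k} {x y : F} (h : IsAt P x y) :
    IsAt (iac i P) (-x) (i * y) := by
  have e : (i * y) ^ 2 = (-x) ^ 3 + k * (-x) := by
    rw [mul_pow, hi, ek_eqn h]
    ring
  obtain ⟨Q, hQ⟩ := ek_nonsing hk e
  have hex : ∃ (Q : Ek k) (x y : F), IsAt P x y ∧ IsAt Q (-x) (i * y) := ⟨Q, x, y, h, hQ⟩
  unfold iac
  rw [dif_pos hex]
  obtain ⟨x', y', h1, h2⟩ := hex.choose_spec
  obtain ⟨e1, e2⟩ := h1.unique h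
  rw [e1, e2] at h2
  exact h2

open Classical in
/-- The descent map: `x(P)`, and `k` at `(0, 0)`, `1` at the origin. -/
noncomputable def al (P : Ek k) : F :=
  if h : ∃ x y : F, IsAt P x y ∧ x ≠ 0 then h.choose else if P = 0 then 1 else k

theorem al_zero : al (0 : Ek k) = 1 := by
  unfold al
  rw [dif_neg, if_pos rfl]
  rintro ⟨x, y, h, -⟩
  exact h.ne_zero rfl

theorem al_isAt {P : Ek k} {x y : F} (h : IsAt P x y) (hx : x ≠ 0) : al P = x := by
  have hex : ∃ x y : F, IsAt P x y ∧ x ≠ 0 := ⟨x, y, h, hx⟩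
  unfold al
  rw [dif_pos hex]
  exact (hex.choose_spec.choose_spec.1.unique h).1

theorem al_T {P : Ek k} {y : F} (h : IsAt P 0 y) : al P = k := by
  unfold al
  rw [dif_neg, if_neg h.ne_zero]
  rintro ⟨x', y', h', hx'⟩
  exact hx' (h'.unique h).1

theorem al_ne (hk : k ≠ 0) (P : Ek k) : al P ≠ 0 := by
  by_cases h0 : P = 0
  · rw [h0, al_zero]
    exact one_ne_zero
  · obtain ⟨x, y, h⟩ := exists_isAt h0
    by_cases hx : x = 0
    · rw [hx] at h
      rw [al_T h]
      exact hk
    · rw [al_isAt h hx]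
      exact hx

end curve

/-- `a` and `b` are equal up to a nonzero square. -/
def SqE {F : Type} [Field F] (a b : F) : Prop := ∃ s : F, s ≠ 0 ∧ a = b * s ^ 2

theorem SqE.refl {F : Type} [Field F] (a : F) : SqE a a := ⟨1, one_ne_zero, by ring⟩

theorem SqE.symm {F : Type} [Field F] {a b : F} (h : SqE a b) : SqE b a := by
  obtain ⟨s, hs, e⟩ := h
  exact ⟨s⁻¹, inv_ne_zero hs, by rw [e]; field_simp⟩

theorem SqE.trans {F : Type} [Field F] {a b c : F} (h : SqE a b) (h' : SqE b c) : SqE a c := by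
  obtain ⟨s, hs, e⟩ := h
  obtain ⟨t, ht, e'⟩ := h'
  exact ⟨t * s, mul_ne_zero ht hs, by rw [e, e']; ring⟩

theorem SqE.mul {F : Type} [Field F] {a b c d : F} (h : SqE a b) (h' : SqE c d) : SqE (a * c) (b * d) := by
  obtain ⟨s, hs, e⟩ := h
  obtain ⟨t, ht, e'⟩ := h'
  exact ⟨s * t, mul_ne_zero hs ht, by rw [e, e']; ring⟩

theorem SqE.ne {F : Type} [Field F] {a b : F} (h : SqE a b) (hb : b ≠ 0) : a ≠ 0 := by
  obtain ⟨s, hs, e⟩ := h
  rw [e]
  exact mul_ne_zero hb (pow_ne_zero 2 hs)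

section local_

variable (F : Type) [Field F] [NumberField F]

/-- The completion of `F` at `v`. -/
abbrev Fc (v : Pr F) : Type := v.adicCompletion F

variable {F}

/-- Its valuation. -/
noncomputable def va (v : Pr F) : Valuation (Fc F v) ℤᵐ⁰ := Valued.v

/-- The embedding. -/
noncomputable def emb (v : Pr F) : F →+* Fc F v := algebraMap F (Fc F v)

theorem va_emb (v : Pr F) (x : F) : va v (emb v x) = v.valuation F x :=
  HeightOneSpectrum.valuedAdicCompletion_eq_valuation' v x

/-- The class of `d` is in the local image of `y² = x³ + c² x` at `v`. -/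
def Wl (v : Pr F) (c d : F) : Prop :=
  SqE (emb v d) 1 ∨ ∃ x y : Fc F v, x ≠ 0 ∧ y ^ 2 = x ^ 3 + emb v c ^ 2 * x ∧ SqE (emb v d) x

/-- `d` has even order outside `S`. -/
def LS (S : Finset (Pr F)) (d : F) : Prop := d ≠ 0 ∧ ∀ v : Pr F, v ∉ S → Even (od v d)

/-- `S` contains the primes above 2. -/
def Ab2 (S : Finset (Pr F)) : Prop := ∀ v : Pr F, (2 : 𝓞 F) ∈ v.asIdeal → v ∈ S

end local_

end Pool.Agent.H60R
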