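import Pool.Agent.Lib.H60R.Defs

/-!
# D03 (M): square roots near 1 in the completion

PROOF. Put `e = (t - 1)/4`, `va e < 1`. The iteration `w 0 = 0`, `w (n+1) = e - (w n)²` satisfies `va (w n) ≤ va e < 1` and
`va (w (n+2) - w (n+1)) = va (w n - w (n+1)) va (w n + w (n+1)) ≤ va e · va (w (n+1) - w n)`, so it is a Cauchy sequence (the valued topology; `va e ^ n → 0` in `ℤᵐ⁰`), the space is
complete, the limit `w` satisfies `w² + w = e`, `va w ≤ va e`; `s = 1 + 2 w`: `s² = 1 + 4 (w + w²) = t`, `va (s - 1) = va 2 · va w ≤ va 2 · va e`, i.e. `va (s - 1) * va 2 ≤ va (t - 1)`.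
(Other way: `IsAdicComplete` of `v.adicCompletionIntegers F` and `IsAdicComplete.henselianRing`, polynomial `X² + X - e`.)
`va_pow_tendsto`-type facts: `Valued.mem_nhds`, `HeightOneSpectrum` API; `MulArchimedean`/rank one of `ℤᵐ⁰`.
-/

set_option autoImplicit false

open NumberField IsDedekindDomain WeierstrassCurve WeierstrassCurve.Affine
open Pool.Agent.H60.UDef CFT
open scoped WithZero

namespace Pool.Agent.H60R

theorem d03_cauchy {K : Type} [Field K] [Valued K ℤᵐ⁰] {w : ℕ → K} {ε : ℤᵐ⁰} (hε : ε < 1)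
    (hw : ∀ n, (Valued.v (w (n + 1) - w n) : ℤᵐ⁰) ≤ ε ^ (n + 1)) : CauchySeq w := by
  have h1 : ∀ m k, (Valued.v (w (m + k) - w m) : ℤᵐ⁰) ≤ ε ^ (m + 1) := by
    intro m k
    induction k with
    | zero =>
      rw [add_zero, sub_self, map_zero]
      exact zero_le
    | succ k ih =>
      have h2 : w (m + (k + 1)) - w m = (w (m + k + 1) - w (m + k)) + (w (m + k) - w m) := by
        rw [← add_assoc]
        ring
      rw [h2]
      refine Valuation.map_add_le _ ((hw (m + k)).trans ?_) ih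
      exact pow_le_pow_right_of_le_one' hε.le (by omega)
  rw [(Valued.hasBasis_uniformity K ℤᵐ⁰).cauchySeq_iff']
  intro γ _
  have hγ : MonoidWithZeroHom.ValueGroup₀.embedding γ.1 ≠ 0 := by
    intro h
    rw [map_eq_zero_iff _ MonoidWithZeroHom.ValueGroup₀.embedding_strictMono.injective] at h
    exact γ.ne_zero h
  obtain ⟨N, hN⟩ := exists_pow_lt₀ hε (Units.mk0 _ hγ)
  refine ⟨N, fun n hn => ?_⟩
  show Valued.v.restrict (w N - w n) < γ.1
  rw [Valuation.restrict_lt_iff_lt_embedding]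
  obtain ⟨k, rfl⟩ := Nat.exists_eq_add_of_le hn
  rw [Valuation.map_sub_swap]
  refine lt_of_le_of_lt (h1 N k) (lt_of_le_of_lt ?_ hN)
  exact pow_le_pow_right_of_le_one' hε.le (by omega)

theorem d03_root {K : Type} [Field K] [Valued K ℤᵐ⁰] [CompleteSpace K] [T2Space K] {e : K}
    (he : (Valued.v e : ℤᵐ⁰) < 1) : ∃ w : K, w ^ 2 + w = e ∧ (Valued.v w : ℤᵐ⁰) < 1 := by
  obtain ⟨u, hu0, hu⟩ : ∃ u : ℕ → K, u 0 = 0 ∧ ∀ n, u (n + 1) = e - u n ^ 2 :=
    ⟨fun n => Nat.rec 0 (fun _ y => e - y ^ 2) n, rfl, fun n => rfl⟩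
  have h1 : ∀ n, (Valued.v (u n) : ℤᵐ⁰) ≤ Valued.v e := by
    intro n
    induction n with
    | zero =>
      rw [hu0, map_zero]
      exact zero_le
    | succ n ih =>
      rw [hu n]
      refine Valuation.map_sub_le _ le_rfl ?_
      rw [map_pow, pow_two]
      calc (Valued.v (u n) : ℤᵐ⁰) * Valued.v (u n) ≤ Valued.v e * 1 :=
            mul_le_mul' ih (ih.trans he.le)
        _ = Valued.v e := mul_one _
  have h2 : ∀ n, (Valued.v (u (n + 1) - u n) : ℤᵐ⁰) ≤ Valued.v e ^ (n + 1) := by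
    intro n
    induction n with
    | zero =>
      rw [hu 0, hu0, zero_add, pow_one]
      simp
    | succ n ih =>
      have h3 : u (n + 1 + 1) - u (n + 1) = -((u (n + 1) - u n) * (u (n + 1) + u n)) := by
        rw [hu (n + 1)]
        have h4 := hu n
        linear_combination (-1 : K) * h4
      rw [h3, Valuation.map_neg, map_mul, pow_succ]
      exact mul_le_mul' ih (Valuation.map_add_le _ (h1 (n + 1)) (h1 n))
  obtain ⟨w, hw⟩ := cauchySeq_tendsto_of_complete (d03_cauchy he h2)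
  have h5 : Filter.Tendsto (fun n => u (n + 1)) Filter.atTop (nhds w) := (Filter.tendsto_add_atTop_iff_nat 1).2 hw
  have h6 : Filter.Tendsto (fun n => u (n + 1)) Filter.atTop (nhds (e - w ^ 2)) := by
    simp only [hu]
    exact tendsto_const_nhds.sub (hw.pow 2)
  have h7 := tendsto_nhds_unique h5 h6
  refine ⟨w, by rw [eq_sub_iff_add_eq] at h7; rw [add_comm]; exact h7, ?_⟩
  have h8 : {y : K | Valued.v.restrict (y - w) < (1 : (MonoidWithZeroHom.ValueGroup₀ (.ofClass (Valued.v (R := K) (Γ₀ := ℤᵐ⁰))))ˣ).1} ∈ nhds w :=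
    Valued.mem_nhds.2 ⟨1, subset_rfl⟩
  obtain ⟨n, hn⟩ := (hw.eventually h8).exists
  have h9 : (Valued.v (u n - w) : ℤᵐ⁰) < 1 := by
    have h10 : Valued.v.restrict (u n - w) < 1 := hn
    rwa [Valuation.restrict_lt_one_iff] at h10
  have h11 : w = u n - (u n - w) := by ring
  rw [h11]
  refine lt_of_le_of_lt (Valuation.map_sub _ _ _) (max_lt (lt_of_le_of_lt (h1 n) he) h9)

theorem sqrt_near {F : Type} [Field F] [NumberField F] (v : Pr F) {t : Fc F v} (h : va v (t - 1) < va v 4) :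
    ∃ s : Fc F v, s ^ 2 = t ∧ va v (s - 1) * va v 2 ≤ va v (t - 1) := by
  have h40 : va v 4 ≠ 0 := by
    intro h0
    rw [h0] at h
    exact not_lt_zero h
  have h4 : (4 : Fc F v) ≠ 0 := by
    intro h0
    rw [h0, map_zero] at h40
    exact h40 rfl
  have h44 : (4 : Fc F v) = 2 * 2 := by norm_num
  have he : va v ((t - 1) / 4) < 1 := by
    rw [map_div₀]
    exact (div_lt_one₀ (zero_lt_iff.2 h40)).2 h
  obtain ⟨w, hw, hw1⟩ := d03_root (K := Fc F v) he
  have hw1' : va v w < 1 := hw1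
  have h5 : va v ((t - 1) / 4) = va v w := by
    have h6 : (t - 1) / 4 = w * (1 + w) := by rw [← hw]; ring
    have h7 : va v (1 + w) = 1 := by
      rw [add_comm, Valuation.map_add_eq_of_lt_right (va v) (by rwa [map_one]), map_one]
    rw [h6, map_mul, h7, mul_one]
  refine ⟨1 + 2 * w, ?_, ?_⟩
  · have h8 : 4 * (w ^ 2 + w) = t - 1 := by
      rw [hw]
      field_simp
    linear_combination h8
  · rw [add_sub_cancel_left, map_mul, ← h5, mul_comm (va v 2), mul_assoc, ← map_mul, ← h44, ← map_mul, div_mul_cancel₀ _ h4]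

end Pool.Agent.H60R
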