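import Pool.Agent.Lib.H60R.Defs
import Pool.Agent.Lib.H60R.D03

/-!
# D04 (S/M): fourth roots near 1, density

PROOFS.
* `dense`: `HeightOneSpectrum.denseRange_algebraMap` and `Valued.mem_nhds` (the ball is open).
* `fourth`: choose `N` with `exp (-N) ≤ va 4 * va 4 * va 2` or so (`va 4 ≠ 0`, `va 2 ≠ 0`, values of `ℤᵐ⁰`; `va 2 ≤ 1`). `t = s²` with `va (s - 1) * va 2 ≤ va (t - 1) < exp (-N)`,
  so `va (s - 1) < va 4`, and `s = r²`. `r ≠ 0` since `t ≠ 0` (`va (t-1) < 1`).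
-/

set_option autoImplicit false

open NumberField IsDedekindDomain WeierstrassCurve WeierstrassCurve.Affine
open Pool.Agent.H60.UDef CFT
open scoped WithZero

namespace Pool.Agent.H60R

theorem d04_le_one {F : Type} [Field F] [NumberField F] (v : Pr F) (n : ℕ) : va v (n : Fc F v) ≤ 1 := by
  have h : (n : Fc F v) = emb v (((n : 𝓞 F)) : F) := by
    have h0 : (((n : 𝓞 F)) : F) = (n : F) := map_natCast (algebraMap (𝓞 F) F) n
    rw [h0, map_natCast]
  rw [h, va_emb]
  exact v.valuation_le_one _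

theorem d04_ge (x : ℤᵐ⁰) (hx : x ≠ 0) : ∃ k : ℕ, WithZero.exp (-(k : ℤ)) ≤ x := by
  refine ⟨(-WithZero.log x).toNat, ?_⟩
  have h1 := Int.self_le_toNat (-WithZero.log x)
  conv_rhs => rw [← WithZero.exp_log hx]
  rw [WithZero.exp_le_exp]
  omega

theorem d04_open {F : Type} [Field F] [NumberField F] (v : Pr F) (N : ℕ) :
    IsOpen {x : Fc F v | va v x < WithZero.exp (-(N : ℤ))} := by
  obtain ⟨ϖ, hϖ⟩ := v.valuation_exists_uniformizer F
  have h1 : va v (emb v (ϖ ^ N)) = WithZero.exp (-(N : ℤ)) := by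
    rw [va_emb, map_pow, hϖ, ← WithZero.exp_nsmul]
    congr 1
    simp
  have h2 : {x : Fc F v | va v x < WithZero.exp (-(N : ℤ))} =
      {x : Fc F v | (Valued.v (R := Fc F v)).restrict x < (Valued.v (R := Fc F v)).restrict (emb v (ϖ ^ N))} := by
    ext x
    rw [Set.mem_ofPred_eq, Set.mem_ofPred_eq, Valuation.restrict_lt_iff, ← h1]
    rfl
  rw [h2]
  exact Valued.isOpen_ball _ _

theorem dense {F : Type} [Field F] [NumberField F] (v : Pr F) (a : Fc F v) (N : ℕ) :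
    ∃ b : F, va v (a - emb v b) < WithZero.exp (-(N : ℤ)) := by
  have hopen : IsOpen {x : Fc F v | va v (a - x) < WithZero.exp (-(N : ℤ))} :=
    (d04_open v N).preimage (continuous_const.sub continuous_id)
  have hne : {x : Fc F v | va v (a - x) < WithZero.exp (-(N : ℤ))}.Nonempty := by
    refine ⟨a, ?_⟩
    rw [Set.mem_ofPred_eq, sub_self, map_zero]
    exact WithZero.zero_lt_coe _
  obtain ⟨b, hb⟩ := (HeightOneSpectrum.denseRange_algebraMap F v).exists_mem_open hopen hne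
  exact ⟨b, hb⟩

theorem fourth {F : Type} [Field F] [NumberField F] (v : Pr F) :
    ∃ N : ℕ, ∀ t : Fc F v, va v (t - 1) < WithZero.exp (-(N : ℤ)) → ∃ r : Fc F v, r ≠ 0 ∧ r ^ 4 = t := by
  have h2 : va v (2 : Fc F v) ≤ 1 := by exact_mod_cast d04_le_one v 2
  have h4 : va v (4 : Fc F v) ≤ 1 := by exact_mod_cast d04_le_one v 4
  have h20 : va v (2 : Fc F v) ≠ 0 := (Valuation.ne_zero_iff _).2 (by
    have := (map_ne_zero (emb v)).2 (two_ne_zero (α := F))
    rwa [map_ofNat] at this)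
  have h40 : va v (4 : Fc F v) ≠ 0 := (Valuation.ne_zero_iff _).2 (by
    have := (map_ne_zero (emb v)).2 (show (4 : F) ≠ 0 by norm_num)
    rwa [map_ofNat] at this)
  obtain ⟨N, hN⟩ := d04_ge (va v 4 * va v 2) (mul_ne_zero h40 h20)
  refine ⟨N, fun t ht => ?_⟩
  have h1 : va v (t - 1) < va v 4 * va v 2 := ht.trans_le hN
  have h3 : va v (t - 1) < va v 4 := by
    refine h1.trans_le ?_
    calc va v 4 * va v 2 ≤ va v 4 * 1 := mul_le_mul_right h2 _
      _ = va v 4 := mul_one _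
  obtain ⟨s, hs, hs'⟩ := sqrt_near v h3
  have h5 : va v (s - 1) < va v 4 := lt_of_mul_lt_mul_right (hs'.trans_lt h1) (zero_le)
  obtain ⟨r, hr, -⟩ := sqrt_near v h5
  refine ⟨r, ?_, by rw [← hs, ← hr]; ring⟩
  rintro rfl
  have h6 : t = 0 := by rw [← hs, ← hr]; ring
  rw [h6, zero_sub, Valuation.map_neg, map_one] at h3
  exact absurd h4 (not_le.2 h3)

end Pool.Agent.H60R
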