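import Pool.Agent.Lib.H60R.Defs
import Pool.Agent.Lib.CFT.B14
import Pool.Agent.Lib.H60R.D04

/-!
# D06 (M): simultaneous approximation of values of the norm form

PROOF. For `v ∈ S` let `emb v d' = a_v² - emb v d b_v²`. The map `(a, b) ↦ a² - d b²` is continuous and its value `d' ≠ 0`: there is `N_v` such that `va (a - a_v), va (b - b_v) < exp (-N_v)` imply
`va (a² - d b² - d') < exp (-N) va d'` (elementary ultrametric estimates; `va` of `(a - a_v)(a + a_v)`; take `N_v` large compared with `va a_v`, `va b_v`, `va d`, `va d'`). Choose `a'_v, b'_v ∈ F` with `dense` (D04) and then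
global `a, b` with `approx` (B14; `ε = 1`). Then `v.valuation ((a² - d b²)/d' - 1) < exp (-N)`, so `a² - d b² ≠ 0` and `v.valuation (d'/(a² - d b²) - 1) < exp (-N)`
(a unit close to 1). If `S` is empty take `a = 1, b = 0` (or treat it uniformly: `a² - d b² ≠ 0` must hold; for `S = ∅` choose `a = 1, b = 0`).
Signs: `Ray.pos` holds because `F` has no real embedding.
-/

set_option autoImplicit false

open NumberField IsDedekindDomain WeierstrassCurve WeierstrassCurve.Affine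
open Pool.Agent.H60.UDef CFT
open scoped WithZero

namespace Pool.Agent.H60R

theorem d06_le (x : ℤᵐ⁰) : ∃ k : ℕ, x ≤ WithZero.exp (k : ℤ) := by
  by_cases hx : x = 0
  · exact ⟨0, hx ▸ zero_le⟩
  · refine ⟨(WithZero.log x).toNat, ?_⟩
    rw [← WithZero.exp_log hx, WithZero.exp_le_exp, WithZero.log_exp]
    exact Int.self_le_toNat _

theorem d06_ge (x : ℤᵐ⁰) (hx : x ≠ 0) : ∃ k : ℕ, WithZero.exp (-(k : ℤ)) ≤ x := by
  refine ⟨(-WithZero.log x).toNat, ?_⟩
  have h1 := Int.self_le_toNat (-WithZero.log x)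
  conv_rhs => rw [← WithZero.exp_log hx]
  rw [WithZero.exp_le_exp]
  omega

/-- The norm form is continuous. -/
theorem d06_cont {K : Type} [Field K] (w : Valuation K ℤᵐ⁰) (a₀ b₀ δ c : K) (hc : c ≠ 0) (N : ℕ) :
    ∃ M : ℕ, ∀ a b : K, w (a - a₀) < WithZero.exp (-(M : ℤ)) → w (b - b₀) < WithZero.exp (-(M : ℤ)) →
      w (a ^ 2 - δ * b ^ 2 - (a₀ ^ 2 - δ * b₀ ^ 2)) < WithZero.exp (-(N : ℤ)) * w c := by
  obtain ⟨k1, hk1⟩ := d06_le (w (2 * a₀))
  obtain ⟨k2, hk2⟩ := d06_le (w (2 * b₀))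
  obtain ⟨k3, hk3⟩ := d06_le (w δ)
  obtain ⟨k4, hk4⟩ := d06_ge (w c) ((Valuation.ne_zero_iff w).2 hc)
  refine ⟨N + k1 + k2 + k3 + k4, fun a b ha hb => ?_⟩
  have e : a ^ 2 - δ * b ^ 2 - (a₀ ^ 2 - δ * b₀ ^ 2) = (a - a₀) * ((a - a₀) + 2 * a₀) - δ * ((b - b₀) * ((b - b₀) + 2 * b₀)) := by
    ring
  have hM : WithZero.exp (-((N + k1 + k2 + k3 + k4 : ℕ) : ℤ)) ≤ (1 : ℤᵐ⁰) := by
    rw [← WithZero.exp_zero, WithZero.exp_le_exp]
    omega
  have h1 : w ((a - a₀) + 2 * a₀) ≤ WithZero.exp (k1 : ℤ) := by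
    refine Valuation.map_add_le _ ((ha.le.trans hM).trans ?_) hk1
    rw [← WithZero.exp_zero, WithZero.exp_le_exp]
    omega
  have h2 : w ((b - b₀) + 2 * b₀) ≤ WithZero.exp (k2 : ℤ) := by
    refine Valuation.map_add_le _ ((hb.le.trans hM).trans ?_) hk2
    rw [← WithZero.exp_zero, WithZero.exp_le_exp]
    omega
  have hN : WithZero.exp (-((N + k4 : ℕ) : ℤ)) ≤ WithZero.exp (-(N : ℤ)) * w c := by
    refine le_trans ?_ (mul_le_mul_right hk4 _)
    rw [← WithZero.exp_add, WithZero.exp_le_exp]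
    push_cast
    omega
  have hp : ∀ n : ℤ, (0 : ℤᵐ⁰) < WithZero.exp n := fun n => WithZero.zero_lt_coe _
  have h3 : w ((a - a₀) * ((a - a₀) + 2 * a₀)) < WithZero.exp (-(N : ℤ)) * w c := by
    rw [map_mul]
    calc w (a - a₀) * w ((a - a₀) + 2 * a₀) ≤ w (a - a₀) * WithZero.exp (k1 : ℤ) := mul_le_mul_right h1 _
      _ < WithZero.exp (-((N + k1 + k2 + k3 + k4 : ℕ) : ℤ)) * WithZero.exp (k1 : ℤ) := by
          exact mul_lt_mul_of_pos_right ha (hp _)
      _ ≤ WithZero.exp (-((N + k4 : ℕ) : ℤ)) := by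
          rw [← WithZero.exp_add, WithZero.exp_le_exp]
          push_cast
          omega
      _ ≤ _ := hN
  have h4 : w (δ * ((b - b₀) * ((b - b₀) + 2 * b₀))) < WithZero.exp (-(N : ℤ)) * w c := by
    rw [map_mul, map_mul]
    calc w δ * (w (b - b₀) * w ((b - b₀) + 2 * b₀)) ≤ WithZero.exp (k3 : ℤ) * (w (b - b₀) * w ((b - b₀) + 2 * b₀)) :=
          mul_le_mul_left hk3 _
      _ ≤ WithZero.exp (k3 : ℤ) * (w (b - b₀) * WithZero.exp (k2 : ℤ)) := mul_le_mul_right (mul_le_mul_right h2 _) _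
      _ < WithZero.exp (k3 : ℤ) * (WithZero.exp (-((N + k1 + k2 + k3 + k4 : ℕ) : ℤ)) * WithZero.exp (k2 : ℤ)) := by
          exact mul_lt_mul_of_pos_left (mul_lt_mul_of_pos_right hb (hp _)) (hp _)
      _ ≤ WithZero.exp (-((N + k4 : ℕ) : ℤ)) := by
          rw [← WithZero.exp_add, ← WithZero.exp_add, WithZero.exp_le_exp]
          push_cast
          omega
      _ ≤ _ := hN
  rw [e]
  exact Valuation.map_sub_lt _ h3 h4

theorem norm_approx {F : Type} [Field F] [NumberField F] (hreal : ∀ φ : F →+* ℝ, False) (S : Finset (Pr F)) (N : ℕ) {d d' : F} (hd' : d' ≠ 0)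
    (h : ∀ v ∈ S, ∃ a b : Fc F v, emb v d' = a ^ 2 - emb v d * b ^ 2) :
    ∃ a b : F, a ^ 2 - d * b ^ 2 ≠ 0 ∧ Ray S N (d' / (a ^ 2 - d * b ^ 2)) := by
  classical
  rcases S.eq_empty_or_nonempty with rfl | hne
  · refine ⟨1, 0, by norm_num, ?_, fun v hv => absurd hv (Finset.notMem_empty v), fun φ => (hreal φ).elim⟩
    simpa using hd'
  -- local data
  have hloc : ∀ v : Pr F, ∃ (M : ℕ) (a b : F), v ∈ S → ∀ a' b' : F, v.valuation F (a' - a) < WithZero.exp (-(M : ℤ)) →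
      v.valuation F (b' - b) < WithZero.exp (-(M : ℤ)) →
      v.valuation F (a' ^ 2 - d * b' ^ 2 - d') < WithZero.exp (-(N : ℤ)) * v.valuation F d' := by
    intro v
    by_cases hv : v ∈ S
    · obtain ⟨a₀, b₀, h0⟩ := h v hv
      have hc : emb v d' ≠ 0 := (map_ne_zero (emb v)).2 hd'
      obtain ⟨M, hM⟩ := d06_cont (va v) a₀ b₀ (emb v d) (emb v d') hc N
      obtain ⟨a, ha⟩ := dense v a₀ M
      obtain ⟨b, hb⟩ := dense v b₀ M
      refine ⟨M, a, b, fun _ a' b' ha' hb' => ?_⟩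
      have e1 : emb v a' - a₀ = emb v (a' - a) - (a₀ - emb v a) := by
        rw [map_sub]
        ring
      have e2 : emb v b' - b₀ = emb v (b' - b) - (b₀ - emb v b) := by
        rw [map_sub]
        ring
      have h1 := hM (emb v a') (emb v b') (by
        rw [e1]
        exact Valuation.map_sub_lt _ (by rwa [va_emb]) ha) (by
        rw [e2]
        exact Valuation.map_sub_lt _ (by rwa [va_emb]) hb)
      rw [← h0, ← map_pow, ← map_pow, ← map_mul, ← map_sub, ← map_sub, va_emb, va_emb] at h1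
      exact h1
    · exact ⟨0, 0, 0, fun h => absurd h hv⟩
  choose M a₀ b₀ hM using hloc
  obtain ⟨a, -, ha, -⟩ := approx S (∑ v ∈ S, M v) a₀ (fun _ => 1) (fun _ => one_ne_zero)
  obtain ⟨b, -, hb, -⟩ := approx S (∑ v ∈ S, M v) b₀ (fun _ => 1) (fun _ => one_ne_zero)
  have hle : ∀ v ∈ S, WithZero.exp (-((∑ v ∈ S, M v : ℕ) : ℤ)) ≤ WithZero.exp (-(M v : ℤ)) := by
    intro v hv
    rw [WithZero.exp_le_exp]
    have := Finset.single_le_sum (f := M) (fun _ _ => Nat.zero_le _) hv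
    omega
  have hmain : ∀ v ∈ S, v.valuation F (a ^ 2 - d * b ^ 2 - d') < WithZero.exp (-(N : ℤ)) * v.valuation F d' := fun v hv =>
    hM v hv a b ((ha v hv).trans_le (hle v hv)) ((hb v hv).trans_le (hle v hv))
  have hval : ∀ v ∈ S, v.valuation F (a ^ 2 - d * b ^ 2) = v.valuation F d' := by
    intro v hv
    have h1 : v.valuation F (a ^ 2 - d * b ^ 2 - d') < v.valuation F d' := by
      refine (hmain v hv).trans_le ?_
      calc _ ≤ 1 * v.valuation F d' := mul_le_mul_left (exp_le_one N) _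
        _ = _ := one_mul _
    have h2 : a ^ 2 - d * b ^ 2 = (a ^ 2 - d * b ^ 2 - d') + d' := by ring
    rw [h2]
    exact Valuation.map_add_eq_of_lt_right _ h1
  have hd0 : ∀ v : Pr F, v.valuation F d' ≠ 0 := fun v => (Valuation.ne_zero_iff _).2 hd'
  have hn0 : a ^ 2 - d * b ^ 2 ≠ 0 := by
    obtain ⟨v, hv⟩ := hne
    intro h0
    have h1 := hval v hv
    rw [h0, map_zero] at h1
    exact hd0 v h1.symm
  refine ⟨a, b, hn0, div_ne_zero hd' hn0, fun v hv => ?_, fun φ => (hreal φ).elim⟩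
  have e : d' / (a ^ 2 - d * b ^ 2) - 1 = -((a ^ 2 - d * b ^ 2 - d') / (a ^ 2 - d * b ^ 2)) := by
    field_simp
    ring
  rw [e, Valuation.map_neg, map_div₀, hval v hv]
  rw [div_lt_iff₀ (zero_lt_iff.2 (hd0 v))]
  exact hmain v hv

end Pool.Agent.H60R
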