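import Pool.Agent.Lib.H60R.Defs

/-!
# D17 (S/M): parity of the order of `al P` outside the primes of `k`

PROOF. `od v k = 0`. `P = 0`: `al = 1`, order 0. `P = T`: `al = k`, order 0. `P = (x, y)`, `x ≠ 0`: `y² = x (x² + k)`. If `od v x < 0`: `od v (x² + k) = 2 od v x`, so `2 od v y = 3 od v x` and `od v x` is even (`y ≠ 0` here). If `od v x > 0`: `od v (x² + k) = 0`, `2 od v y = od v x`.
If `od v x = 0`: even. (Ultrametric: `Valuation.map_add_eq_of_lt_left`, `val_eq`; `y ≠ 0` because `x² + k ≠ 0` in the first two cases.)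
-/

set_option autoImplicit false

open NumberField IsDedekindDomain WeierstrassCurve WeierstrassCurve.Affine
open Pool.Agent.H60.UDef CFT
open scoped WithZero

namespace Pool.Agent.H60R

theorem d17_add {F : Type} [Field F] [NumberField F] (v : Pr F) {a b : F} (ha : a ≠ 0) (hb : b ≠ 0) (h : od v a < od v b) :
    a + b ≠ 0 ∧ od v (a + b) = od v a := by
  have h1 : v.valuation F b < v.valuation F a := by
    rw [val_eq v ha, val_eq v hb, WithZero.exp_lt_exp]
    omega
  have h2 : v.valuation F (a + b) = v.valuation F a := Valuation.map_add_eq_of_lt_left _ h1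
  refine ⟨?_, ?_⟩
  · intro h0
    rw [h0, map_zero] at h2
    exact (Valuation.ne_zero_iff _).2 ha h2.symm
  · unfold od
    rw [h2]

theorem al_even {F : Type} [Field F] [NumberField F] {k : F} (hk : k ≠ 0) (v : Pr F) (hv : od v k = 0) (P : Ek k) : Even (od v (al P)) := by
  by_cases hP : P = 0
  · rw [hP, al_zero, od_one]
    exact Even.zero
  obtain ⟨x, y, h₁⟩ := exists_isAt hP
  have E := ek_eqn h₁
  by_cases hx : x = 0
  · rw [hx] at h₁
    rw [al_T h₁, hv]
    exact Even.zero
  rw [al_isAt h₁ hx]
  have hx2 : x ^ 2 ≠ 0 := pow_ne_zero 2 hx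
  have e2 : od v (x ^ 2) = od v x + od v x := by
    rw [pow_two, od_mul v hx hx]
  have key : ∀ m : ℤ, x ^ 2 + k ≠ 0 → od v (x ^ 2 + k) = m → od v y + od v y = od v x + m := by
    intro m h0 hm
    have hy : y ≠ 0 := by
      intro hy
      rw [hy] at E
      have : x * (x ^ 2 + k) = 0 := by linear_combination -E
      rcases mul_eq_zero.1 this with h | h
      · exact hx h
      · exact h0 h
    rw [← od_mul v hy hy, ← hm, ← od_mul v hx h0]
    congr 1
    linear_combination E
  rcases lt_trichotomy (od v x) 0 with h | h | h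
  · obtain ⟨h0, h3⟩ := d17_add v hx2 hk (by rw [e2, hv]; omega)
    have h4 := key _ h0 h3
    rw [e2] at h4
    rw [Int.even_iff]
    omega
  · rw [h]
    exact Even.zero
  · obtain ⟨h0, h3⟩ := d17_add v hk hx2 (by rw [e2, hv]; omega)
    rw [add_comm] at h0 h3
    have h4 := key _ h0 h3
    rw [hv] at h4
    rw [Int.even_iff]
    omega

end Pool.Agent.H60R
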