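import Pool.Agent.Lib.H60R.Defs

/-!
# D15 (M): the descent map is a homomorphism modulo squares; iac is additive

PROOFS. `al_add`: cases. If `P = 0` or `Q = 0`: trivial. If `P = -Q`: `x(P) = x(Q)`. If `x(P) ≠ x(Q)` (`IsAt.add`) or `P = Q`, `y ≠ 0` (`IsAt.dbl`): the line `Y = l X + n` through the points gives
`X³ + k X - (l X + n)² = (X - x₁)(X - x₂)(X - x₃)`, so `x₁ x₂ x₃ = n²`, where `n = y₁ - l x₁`; if all three are nonzero this is the claim. If one of them is 0 (the point `T = (0,0)`, and then `n = 0`), compare the linear coefficient: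
`k - 2 l n = x₁x₂ + x₁x₃ + x₂x₃`, so for `n = 0`, `x₁ = 0`: `k = x₂ x₃` if `x₂, x₃ ≠ 0`; two of them are 0 only if two of the points are `T` (`T + T = 0`): treat separately. `P = Q`, `y = 0`: `2 P = 0` (`IsAt.dbl_zero`), `al P · al P` is a square.
`iac_add`: cases as above with the explicit formulas, `x ↦ -x`, `y ↦ i y`: slope `(i y₁ - i y₂)/(-x₁ + x₂) = -i · slope`, its square `-(slope)²`. (`iac (-P) = - iac P`.)
-/

set_option autoImplicit false

open NumberField IsDedekindDomain WeierstrassCurve WeierstrassCurve.Affine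
open Pool.Agent.H60.UDef CFT
open scoped WithZero

namespace Pool.Agent.H60R

theorem d15_mono {F : Type} [Field F] {k : F} {P : Ek k} {x y x' y' : F} (h : IsAt P x y) (hx : x = x') (hy : y = y') :
    IsAt P x' y' := by
  subst hx hy
  exact h

/-- Two points with the same abscissa. -/
theorem d15_same {F : Type} [Field F] {k : F} {P Q : Ek k} {x y z : F} (h : IsAt P x y) (h' : IsAt Q x z) :
    Q = P ∨ Q = -P := by
  have e1 := ek_eqn h
  have e2 := ek_eqn h'
  have e3 : (z - y) * (z + y) = 0 := by linear_combination e2 - e1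
  rcases mul_eq_zero.1 e3 with h3 | h3
  · left
    exact h'.ext (d15_mono h rfl (by linear_combination -h3))
  · right
    exact h'.ext (d15_mono h.neg rfl (by linear_combination -h3))

theorem d15_al_neg {F : Type} [Field F] {k : F} (P : Ek k) : al (-P) = al P := by
  by_cases h0 : P = 0
  · rw [h0, Point.neg_zero]
  · obtain ⟨x, y, h⟩ := exists_isAt h0
    by_cases hx : x = 0
    · rw [hx] at h
      rw [al_T h, al_T h.neg]
    · rw [al_isAt h hx, al_isAt h.neg hx]

open Classical in
theorem al_add {F : Type} [Field F] [CharZero F] {k : F} (hk : k ≠ 0) (P Q : Ek k) : SqE (al (P + Q)) (al P * al Q) := by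
  by_cases hP : P = 0
  · rw [hP, zero_add, al_zero, one_mul]
    exact SqE.refl _
  by_cases hQ : Q = 0
  · rw [hQ, add_zero, al_zero, mul_one]
    exact SqE.refl _
  obtain ⟨x₁, y₁, h₁⟩ := exists_isAt hP
  obtain ⟨x₂, y₂, h₂⟩ := exists_isAt hQ
  have E₁ := ek_eqn h₁
  have E₂ := ek_eqn h₂
  by_cases hx : x₁ = x₂
  · subst hx
    by_cases hneg : Q = -P
    · rw [hneg, add_neg_cancel, al_zero, d15_al_neg]
      have hne := al_ne hk P
      exact ⟨(al P)⁻¹, inv_ne_zero hne, by field_simp⟩
    · have hQP : Q = P := (d15_same h₁ h₂).resolve_right hneg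
      rw [hQP]
      rw [hQP] at hneg
      have hy : y₁ ≠ 0 := by
        intro hy
        apply hneg
        rw [hy] at h₁
        exact h₁.ext (d15_mono h₁.neg rfl neg_zero)
      have hx0 : x₁ ≠ 0 := by
        intro hx0
        rw [hx0] at E₁
        apply hy
        have : y₁ ^ 2 = 0 := by rw [E₁]; ring
        exact pow_eq_zero_iff (two_ne_zero) |>.1 this
      have h₃ := h₁.dbl hy
      rw [Algebra.algebraMap_self_apply] at h₃
      set l := (3 * x₁ ^ 2 + k) / (2 * y₁) with hl
      have hl2 : l * (2 * y₁) = 3 * x₁ ^ 2 + k := by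
        rw [hl]
        field_simp
      set x₃ := l ^ 2 - x₁ - x₁ with hx3
      have R1 : x₁ ^ 2 * x₃ = (y₁ - l * x₁) ^ 2 := by
        rw [hx3]
        linear_combination E₁ * (-1) + x₁ * hl2
      have R2 : x₁ ^ 2 + 2 * x₁ * x₃ = k - 2 * l * (y₁ - l * x₁) := by
        rw [hx3]
        linear_combination hl2
      rw [al_isAt h₁ hx0]
      by_cases hx3' : x₃ = 0
      · rw [hx3'] at h₃
        rw [al_T h₃]
        have hn : y₁ - l * x₁ = 0 := by
          rw [hx3', mul_zero] at R1
          exact pow_eq_zero_iff (two_ne_zero) |>.1 R1.symm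
        rw [hn, hx3'] at R2
        exact ⟨1, one_ne_zero, by linear_combination -R2⟩
      · rw [al_isAt h₃ hx3']
        refine ⟨(y₁ - l * x₁) / x₁ ^ 2, ?_, ?_⟩
        · apply div_ne_zero _ (pow_ne_zero 2 hx0)
          intro hn
          rw [hn] at R1
          have : x₁ ^ 2 * x₃ = 0 := by rw [R1]; ring
          rcases mul_eq_zero.1 this with h | h
          · exact pow_ne_zero 2 hx0 h
          · exact hx3' h
        · rw [div_pow, ← R1]
          field_simp
  · have h₃ := h₁.add h₂ hx
    have hd : x₁ - x₂ ≠ 0 := sub_ne_zero.2 hx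
    set l := (y₁ - y₂) / (x₁ - x₂) with hl
    have hl2 : l * (x₁ - x₂) = y₁ - y₂ := by
      rw [hl]
      field_simp
    set x₃ := l ^ 2 - x₁ - x₂ with hx3
    have A : l ^ 2 * (x₁ + x₂) + 2 * l * (y₁ - l * x₁) = x₁ ^ 2 + x₁ * x₂ + x₂ ^ 2 + k := by
      apply mul_right_cancel₀ hd
      linear_combination E₁ - E₂ + (y₁ + y₂ - l * (x₁ - x₂)) * hl2
    have R2 : x₁ * x₂ + x₁ * x₃ + x₂ * x₃ = k - 2 * l * (y₁ - l * x₁) := by
      rw [hx3]
      linear_combination A
    have R1 : x₁ * x₂ * x₃ = (y₁ - l * x₁) ^ 2 := by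
      rw [hx3]
      linear_combination x₁ * A - E₁
    by_cases hx1 : x₁ = 0
    · have hx2 : x₂ ≠ 0 := by
        intro h
        exact hx (hx1.trans h.symm)
      have hy1 : y₁ = 0 := by
        have : y₁ ^ 2 = 0 := by rw [E₁, hx1]; ring
        exact pow_eq_zero_iff (two_ne_zero) |>.1 this
      rw [hx1] at h₁
      rw [al_T h₁, al_isAt h₂ hx2]
      have hk2 : x₂ * x₃ = k := by
        rw [hx1, hy1] at R2
        linear_combination R2
      have hx3' : x₃ ≠ 0 := by
        intro h
        apply hk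
        rw [← hk2, h, mul_zero]
      rw [al_isAt h₃ hx3']
      exact ⟨x₂⁻¹, inv_ne_zero hx2, by rw [← hk2]; field_simp⟩
    · by_cases hx2 : x₂ = 0
      · have hy2 : y₂ = 0 := by
          have : y₂ ^ 2 = 0 := by rw [E₂, hx2]; ring
          exact pow_eq_zero_iff (two_ne_zero) |>.1 this
        rw [hx2] at h₂
        rw [al_T h₂, al_isAt h₁ hx1]
        have hn : y₁ - l * x₁ = 0 := by
          rw [hx2, hy2] at hl2
          linear_combination -hl2
        have hk2 : x₁ * x₃ = k := by
          rw [hn, hx2] at R2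
          linear_combination R2
        have hx3' : x₃ ≠ 0 := by
          intro h
          apply hk
          rw [← hk2, h, mul_zero]
        rw [al_isAt h₃ hx3']
        exact ⟨x₁⁻¹, inv_ne_zero hx1, by rw [← hk2]; field_simp⟩
      · rw [al_isAt h₁ hx1, al_isAt h₂ hx2]
        have h12 : x₁ * x₂ ≠ 0 := mul_ne_zero hx1 hx2
        by_cases hx3' : x₃ = 0
        · rw [hx3'] at h₃
          rw [al_T h₃]
          have hn : y₁ - l * x₁ = 0 := by
            rw [hx3', mul_zero] at R1
            exact pow_eq_zero_iff (two_ne_zero) |>.1 R1.symm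
          rw [hn, hx3'] at R2
          exact ⟨1, one_ne_zero, by linear_combination -R2⟩
        · rw [al_isAt h₃ hx3']
          refine ⟨(y₁ - l * x₁) / (x₁ * x₂), ?_, ?_⟩
          · apply div_ne_zero _ h12
            intro hn
            rw [hn] at R1
            have : x₁ * x₂ * x₃ = 0 := by rw [R1]; ring
            rcases mul_eq_zero.1 this with h | h
            · exact h12 h
            · exact hx3' h
          · rw [div_pow, ← R1]
            field_simp

open Classical in
theorem iac_add {F : Type} [Field F] [CharZero F] {k i : F} (hk : k ≠ 0) (hi : i ^ 2 = -1) (P Q : Ek k) : iac i (P + Q) = iac i P + iac i Q := by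
  have hi0 : i ≠ 0 := by
    rintro rfl
    rw [zero_pow two_ne_zero] at hi
    exact one_ne_zero (neg_eq_zero.1 hi.symm)
  by_cases hP : P = 0
  · rw [hP, zero_add, iac_zero, zero_add]
  by_cases hQ : Q = 0
  · rw [hQ, add_zero, iac_zero, add_zero]
  obtain ⟨x₁, y₁, h₁⟩ := exists_isAt hP
  obtain ⟨x₂, y₂, h₂⟩ := exists_isAt hQ
  have E₁ := ek_eqn h₁
  have E₂ := ek_eqn h₂
  have g₁ := iac_isAt hk hi h₁
  have g₂ := iac_isAt hk hi h₂
  by_cases hx : x₁ = x₂
  · subst hx
    by_cases hneg : Q = -P
    · have h4 : IsAt Q x₁ (-y₁) := by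
        rw [hneg]
        exact h₁.neg
      have g4 := iac_isAt hk hi h4
      have h5 : iac i Q = -iac i P := g4.ext (d15_mono g₁.neg rfl (by ring))
      rw [h5, add_neg_cancel, hneg, add_neg_cancel, iac_zero]
    · have hQP : Q = P := (d15_same h₁ h₂).resolve_right hneg
      rw [hQP]
      rw [hQP] at hneg
      have hy : y₁ ≠ 0 := by
        intro hy
        apply hneg
        rw [hy] at h₁
        exact h₁.ext (d15_mono h₁.neg rfl neg_zero)
      have h₃ := iac_isAt hk hi (h₁.dbl hy)
      have g₃ := g₁.dbl (mul_ne_zero hi0 hy)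
      rw [Algebra.algebraMap_self_apply] at h₃ g₃
      have hs : (3 * (-x₁) ^ 2 + k) / (2 * (i * y₁)) = -i * ((3 * x₁ ^ 2 + k) / (2 * y₁)) := by
        field_simp
        linear_combination (3 * x₁ ^ 2 + k) * hi
      rw [hs] at g₃
      set l := (3 * x₁ ^ 2 + k) / (2 * y₁) with hl
      refine h₃.ext (d15_mono g₃ ?_ ?_)
      · linear_combination l ^ 2 * hi
      · linear_combination (i * l ^ 3) * hi
  · have h₃ := iac_isAt hk hi (h₁.add h₂ hx)
    have hd : x₁ - x₂ ≠ 0 := sub_ne_zero.2 hx
    have g₃ := g₁.add g₂ (fun h => hx (neg_injective h))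
    have hd' : -x₁ - -x₂ ≠ 0 := by
      intro h
      apply hd
      linear_combination -h
    have hs : (i * y₁ - i * y₂) / (-x₁ - -x₂) = -i * ((y₁ - y₂) / (x₁ - x₂)) := by
      rw [div_eq_iff hd']
      field_simp
      ring
    rw [hs] at g₃
    set l := (y₁ - y₂) / (x₁ - x₂) with hl
    refine h₃.ext (d15_mono g₃ ?_ ?_)
    · linear_combination l ^ 2 * hi
    · linear_combination (i * l ^ 3) * hi

theorem iac_iac {F : Type} [Field F] [CharZero F] {k i : F} (hk : k ≠ 0) (hi : i ^ 2 = -1) (P : Ek k) : iac i (iac i P) = -P := by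
  by_cases hP : P = 0
  · rw [hP, iac_zero, iac_zero, Point.neg_zero]
  · obtain ⟨x, y, h⟩ := exists_isAt hP
    have h1 := iac_isAt hk hi (iac_isAt hk hi h)
    exact h1.ext (d15_mono h.neg (by ring) (by linear_combination (-y) * hi))

end Pool.Agent.H60R
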