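import Pool.Agent.Lib.H60R.Defs

/-!
# D07 (M, 4 small): quadratic extensions

`L/F` with `δ ∈ L`, `δ² = d`, `d` not a square in `F`, degree 2.
PROOFS. `quad_exists`: `L = AdjoinRoot (X² - C d)`, irreducible since `d` is not a square (`X_pow_sub_C_irreducible_of_prime`, or degree 2 without roots), a number field (finite over `F`, characteristic 0).
`quad_galois`: degree 2, characteristic 0 (`IsGalois.of_separable_splitting_field` or normal of degree 2).
`sgn_exists`: `s δ = ± δ`; `s ↦ 1` if `s δ = δ` and `-1` otherwise is a homomorphism to `ℤˣ`; the kernel is trivial since `L = F(δ)` (degree 2, `δ ∉ F`).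
`quad_norm`: the norm of `a + b δ` is `a² - d b²` (basis `1, δ`, `Algebra.norm_eq_matrix_det`; or the product over the Galois group: `Algebra.norm_eq_prod_automorphisms`).
`quad_ab`: a group with an injective homomorphism to `ℤˣ` is abelian.
-/

set_option autoImplicit false

open NumberField IsDedekindDomain WeierstrassCurve WeierstrassCurve.Affine
open Pool.Agent.H60.UDef CFT
open scoped WithZero

namespace Pool.Agent.H60R

theorem quad_exists {F : Type} [Field F] [NumberField F] {d : F} (hd : ¬ IsSquare d) :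
    ∃ (L : Type) (_ : Field L) (_ : NumberField L) (_ : Algebra F L) (δ : L), δ ^ 2 = algebraMap F L d ∧ Module.finrank F L = 2 := by
  have hirr : Irreducible (Polynomial.X ^ 2 - Polynomial.C d : Polynomial F) := by
    refine X_pow_sub_C_irreducible_of_prime Nat.prime_two fun b hb => hd ⟨b, ?_⟩
    rw [← hb, pow_two]
  have hf : Fact (Irreducible (Polynomial.X ^ 2 - Polynomial.C d : Polynomial F)) := ⟨hirr⟩
  have hdeg : (Polynomial.X ^ 2 - Polynomial.C d : Polynomial F).natDegree = 2 := Polynomial.natDegree_X_pow_sub_C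
  have hfr : Module.finrank F (AdjoinRoot (Polynomial.X ^ 2 - Polynomial.C d : Polynomial F)) = 2 := by
    rw [(AdjoinRoot.powerBasis hirr.ne_zero).finrank, AdjoinRoot.powerBasis_dim, hdeg]
  have hfin : Module.Finite F (AdjoinRoot (Polynomial.X ^ 2 - Polynomial.C d : Polynomial F)) :=
    Module.finite_of_finrank_pos (by rw [hfr]; norm_num)
  have hnf : NumberField (AdjoinRoot (Polynomial.X ^ 2 - Polynomial.C d : Polynomial F)) :=
    NumberField.of_module_finite F _
  refine ⟨AdjoinRoot (Polynomial.X ^ 2 - Polynomial.C d : Polynomial F), inferInstance, hnf, inferInstance,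
    AdjoinRoot.root _, ?_, hfr⟩
  have h1 := AdjoinRoot.eval₂_root (Polynomial.X ^ 2 - Polynomial.C d : Polynomial F)
  rw [Polynomial.eval₂_sub, Polynomial.eval₂_pow, Polynomial.eval₂_X, Polynomial.eval₂_C] at h1
  exact sub_eq_zero.1 h1

section

variable {F : Type} [Field F] [NumberField F] {L : Type} [Field L] [NumberField L] [Algebra F L] {d : F} {δ : L}

theorem quad_galois (h2 : Module.finrank F L = 2) : IsGalois F L := by
  have hq : Algebra.IsQuadraticExtension F L := ⟨h2⟩
  have hn : Normal F L := inferInstance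
  exact { }

omit [NumberField F] [NumberField L] in
theorem d07_ne (hd : ¬ IsSquare d) (hδ : δ ^ 2 = algebraMap F L d) : δ ≠ 0 := by
  rintro rfl
  apply hd
  have h1 : algebraMap F L d = 0 := by rw [← hδ]; ring
  have h2 : d = 0 := (map_eq_zero _).1 h1
  rw [h2]
  exact ⟨0, by ring⟩

omit [NumberField F] [NumberField L] in
theorem d07_li (hd : ¬ IsSquare d) (hδ : δ ^ 2 = algebraMap F L d) : LinearIndependent F ![(1 : L), δ] := by
  rw [LinearIndependent.pair_iff]
  intro s t h
  by_cases ht : t = 0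
  · rw [ht, zero_smul, add_zero, Algebra.smul_def, mul_one] at h
    exact ⟨(map_eq_zero _).1 h, ht⟩
  · exfalso
    apply hd
    rw [Algebra.smul_def, Algebra.smul_def, mul_one] at h
    have ht' : algebraMap F L t ≠ 0 := fun h0 => ht ((map_eq_zero _).1 h0)
    have h1 : δ = algebraMap F L (-(s / t)) := by
      rw [map_neg, map_div₀]
      field_simp
      linear_combination h
    refine ⟨-(s / t), ?_⟩
    apply (algebraMap F L).injective
    rw [← hδ, map_mul, ← h1, pow_two]

omit [NumberField F] [NumberField L] in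
theorem d07_rep (hd : ¬ IsSquare d) (hδ : δ ^ 2 = algebraMap F L d) (h2 : Module.finrank F L = 2) (x : L) :
    ∃ a b : F, x = algebraMap F L a + algebraMap F L b * δ := by
  have hli := d07_li hd hδ
  obtain ⟨B, hB⟩ : ∃ B : Module.Basis (Fin 2) F L, (B : Fin 2 → L) = ![1, δ] :=
    ⟨basisOfLinearIndependentOfCardEqFinrank hli (by rw [h2]; simp),
      coe_basisOfLinearIndependentOfCardEqFinrank _ _⟩
  have hB0 : B 0 = 1 := by rw [hB]; rfl
  have hB1 : B 1 = δ := by rw [hB]; rfl
  refine ⟨B.repr x 0, B.repr x 1, ?_⟩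
  have h3 := B.sum_repr x
  rw [Fin.sum_univ_two, hB0, hB1, Algebra.smul_def, Algebra.smul_def, mul_one] at h3
  exact h3.symm

theorem sgn_exists (hd : ¬ IsSquare d) (hδ : δ ^ 2 = algebraMap F L d) (h2 : Module.finrank F L = 2) :
    ∃ χ : (L ≃ₐ[F] L) →* ℤˣ, Function.Injective χ ∧ ∀ s : L ≃ₐ[F] L, s δ = ((χ s : ℤˣ) : ℤ) * δ := by
  classical
  have hδ0 : δ ≠ 0 := d07_ne hd hδ
  have h3 : ∀ s : L ≃ₐ[F] L, s δ = δ ∨ s δ = -δ := by
    intro s
    have h4 : (s δ) ^ 2 = δ ^ 2 := by
      rw [← map_pow, hδ, s.commutes]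
    exact sq_eq_sq_iff_eq_or_eq_neg.1 h4
  have hneg : -δ ≠ δ := by
    intro h
    apply hδ0
    have h5 : (2 : L) * δ = 0 := by linear_combination -h
    rcases mul_eq_zero.1 h5 with h6 | h6
    · exact absurd h6 two_ne_zero
    · exact h6
  refine ⟨{ toFun := fun s => if s δ = δ then 1 else -1, map_one' := ?_, map_mul' := ?_ }, ?_, ?_⟩
  · exact if_pos rfl
  · intro s t
    have h6 : (s * t) δ = s (t δ) := rfl
    rcases h3 s with hs | hs <;> rcases h3 t with ht | ht
    · rw [h6, ht, hs, if_pos rfl, mul_one]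
    · rw [h6, ht, map_neg, hs, if_neg hneg, if_pos rfl, one_mul]
    · rw [h6, ht, hs, if_neg hneg, if_pos rfl, mul_one]
    · rw [h6, ht, map_neg, hs, neg_neg, if_pos rfl, if_neg hneg]
      rfl
  · rw [injective_iff_map_eq_one]
    intro s hs
    have h7 : s δ = δ := by
      by_contra hcon
      have h8 : (if s δ = δ then (1 : ℤˣ) else -1) = 1 := hs
      rw [if_neg hcon] at h8
      exact absurd h8 (by decide)
    ext x
    obtain ⟨a, b, hab⟩ := d07_rep hd hδ h2 x
    rw [hab, map_add, map_mul, s.commutes, s.commutes, h7]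
    rfl
  · intro s
    show s δ = (((if s δ = δ then (1 : ℤˣ) else -1 : ℤˣ) : ℤ) : L) * δ
    rcases h3 s with hs | hs
    · rw [if_pos hs, hs]
      simp
    · rw [hs, if_neg hneg]
      simp

theorem quad_norm (hd : ¬ IsSquare d) (hδ : δ ^ 2 = algebraMap F L d) (h2 : Module.finrank F L = 2) (a b : F) :
    Algebra.norm F (algebraMap F L a + algebraMap F L b * δ) = a ^ 2 - d * b ^ 2 := by
  classical
  have hli := d07_li hd hδ
  obtain ⟨B, hB⟩ : ∃ B : Module.Basis (Fin 2) F L, (B : Fin 2 → L) = ![1, δ] :=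
    ⟨basisOfLinearIndependentOfCardEqFinrank hli (by rw [h2]; simp),
      coe_basisOfLinearIndependentOfCardEqFinrank _ _⟩
  have hB0 : B 0 = 1 := by rw [hB]; rfl
  have hB1 : B 1 = δ := by rw [hB]; rfl
  have e0 : (algebraMap F L a + algebraMap F L b * δ) * B 0 = a • B 0 + b • B 1 := by
    rw [hB0, hB1, Algebra.smul_def, Algebra.smul_def]
    ring
  have e1 : (algebraMap F L a + algebraMap F L b * δ) * B 1 = (b * d) • B 0 + a • B 1 := by
    rw [hB0, hB1, Algebra.smul_def, Algebra.smul_def, map_mul, ← hδ]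
    ring
  rw [Algebra.norm_eq_matrix_det B, Matrix.det_fin_two]
  simp only [Algebra.leftMulMatrix_eq_repr_mul]
  rw [e0, e1]
  simp only [map_add, map_smul, Module.Basis.repr_self, Finsupp.add_apply, Finsupp.smul_apply, smul_eq_mul]
  have s00 : (Finsupp.single (0 : Fin 2) (1 : F)) 0 = 1 := Finsupp.single_eq_same
  have s11 : (Finsupp.single (1 : Fin 2) (1 : F)) 1 = 1 := Finsupp.single_eq_same
  have s01 : (Finsupp.single (0 : Fin 2) (1 : F)) 1 = 0 := Finsupp.single_eq_of_ne (by decide)
  have s10 : (Finsupp.single (1 : Fin 2) (1 : F)) 0 = 0 := Finsupp.single_eq_of_ne (by decide)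
  rw [s00, s11, s01, s10]
  ring

theorem quad_ab (h2 : Module.finrank F L = 2) (s t : L ≃ₐ[F] L) : s * t = t * s := by
  have hg : IsGalois F L := quad_galois h2
  have hfin : FiniteDimensional F L := Module.finite_of_finrank_pos (by rw [h2]; norm_num)
  have h3 : Nat.card (L ≃ₐ[F] L) = 2 := by
    rw [IsGalois.card_aut_eq_finrank, h2]
  have hp : Fact (Nat.Prime 2) := ⟨Nat.prime_two⟩
  have hc : IsCyclic (L ≃ₐ[F] L) := isCyclic_of_prime_card h3
  obtain ⟨g, hg'⟩ := hc.exists_generator
  obtain ⟨m, rfl⟩ := Subgroup.mem_zpowers_iff.1 (hg' s)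
  obtain ⟨n, rfl⟩ := Subgroup.mem_zpowers_iff.1 (hg' t)
  exact (Commute.refl g).zpow_zpow m n

end

end Pool.Agent.H60R
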