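import Pool.Agent.Lib.H60R.Defs
import Pool.Agent.Lib.H60R.D07

/-!
# D11 (S/M): parity of the Artin symbol

PROOF. `dv d' = Σ_v (od v d') single v`. For `v ∉ S`, `v ≠ q` the order is even, and `χ (frob v)` has square 1 in `ℤˣ` (every element of `ℤˣ` has square 1). So `art S χ (dv d') = od q d' • χ (frob q) = χ (frob q)` as `od q d'` is odd, and this
is `≠ 1` (`χ` injective). In Lean: `dv d' = (dv d' - single q (od q d')) + single q (od q d')`; the first divisor `E` is even outside `S`: `E = 2 • E' + E''` with `E''` supported in `S` (`E' = E.mapRange (· / 2)` outside `S`), or show by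
`Finsupp.induction` that `art S χ E = 0` if `E v` is even for `v ∉ S`.
-/

set_option autoImplicit false

open NumberField IsDedekindDomain WeierstrassCurve WeierstrassCurve.Affine
open Pool.Agent.H60.UDef CFT
open scoped WithZero

namespace Pool.Agent.H60R

theorem d11_two (a : Additive ℤˣ) : a + a = 0 := by
  show Additive.ofMul (a.toMul * a.toMul) = 0
  rw [Int.units_mul_self]
  rfl

theorem d11_even (a : Additive ℤˣ) (n : ℤ) (hn : Even n) : n • a = 0 := by
  obtain ⟨m, rfl⟩ := hn
  rw [add_smul, ← smul_add, d11_two, smul_zero]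

theorem d11_odd (a : Additive ℤˣ) (n : ℤ) (hn : Odd n) : n • a = a := by
  obtain ⟨m, rfl⟩ := hn
  rw [add_smul, one_smul, d11_even a (2 * m) (even_two_mul m), zero_add]

theorem art_odd {F : Type} [Field F] [NumberField F] {L : Type} [Field L] [NumberField L] [Algebra F L] (χ : (L ≃ₐ[F] L) →* ℤˣ)
    (hχ : Function.Injective χ) (S : Finset (Pr F)) {d' : F} {q : Pr F} (hq : q ∉ S) (hfr : frob F L q ≠ 1) (hodd : Odd (od q d'))
    (hev : ∀ v : Pr F, v ∉ S → v ≠ q → Even (od v d')) : art S χ (dv d') ≠ 0 := by
  classical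
  have h1 : art S χ (dv d') = Additive.ofMul (χ (frob F L q)) := by
    unfold art
    rw [Finsupp.liftAddHom_apply, Finsupp.sum, Finset.sum_eq_single q]
    · rw [zmultiplesHom_apply, dv_apply, if_neg hq, d11_odd _ _ hodd]
    · intro v _ hv
      rw [zmultiplesHom_apply, dv_apply]
      by_cases hS : v ∈ S
      · rw [if_pos hS, smul_zero]
      · rw [if_neg hS, d11_even _ _ (hev v hS hv)]
    · intro h
      exfalso
      rw [Finsupp.notMem_support_iff, dv_apply] at h
      rw [h] at hodd
      exact Int.not_odd_zero hodd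
  rw [h1]
  intro h
  apply hfr
  apply hχ
  rw [map_one]
  exact h

end Pool.Agent.H60R
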