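import Pool.Agent.Lib.H60R.Defs

/-!
# D01 (M): ISOTROPY. Images of the descent map are orthogonal, over any field containing `i`.

PROOF. `A = y / x`, `B = y' / x'`: `x A² = x² + c`, `x' B² = x'² + c`, so `x A² - x' B² = (x - x')(x + x')`.
The numbers `x (x - x') = x² - x x'·1²`, `x (x + x') = x² - x x' i²` and `x (x A² - x' B²) = (x A)² - x x' B²` are of the form
`N(u, w) = u² - x x' w²`; the form is multiplicative: `N(u,w) N(u',w') = N(u u' + x x' w w', u w' + w u')`. If `x ≠ x'`, `x ≠ -x'` and the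
three numbers are nonzero, their product is `x³ (x-x')² (x+x')²`, so `x = N(u, w)` for some `u, w` (divide by the square `(x (x-x') (x+x'))²`:
`x = product / (...)²`). So `x = u² - x x' w²`. If `w = 0`: `x = u²`, take `a = u, b = 0`. If `w ≠ 0`, `u ≠ 0`:
`x' = x (u/(x w))² - (1/w)²`, so with `A' = u/(x w)`, `B' = 1/w`: `x A'² = x' + B'²`, `x = (B'/A')² - x' (i/A')²`.
If `u = 0` (`w ≠ 0`): `x' = -(1/w)² = (i/w)²` is a nonzero square `s²` and `x = ((x+1)/2)² - s² ((x-1)/(2s))²`.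
Cases `x = x'`: `x = 0² - x (i)²`, i.e. `a = 0, b = i`. Case `x = -x'`: `x = -x'·1² `, `a = 0, b = 1`.
(If `x A² - x' B² = 0` then `x = x'` or `x = -x'`.)
-/

set_option autoImplicit false

open NumberField IsDedekindDomain WeierstrassCurve WeierstrassCurve.Affine
open Pool.Agent.H60.UDef CFT
open scoped WithZero

namespace Pool.Agent.H60R

theorem isotropy {k : Type} [Field k] [CharZero k] {i c x y x' y' : k} (hi : i ^ 2 = -1) (hx : x ≠ 0) (hx' : x' ≠ 0)
    (h : y ^ 2 = x ^ 3 + c * x) (h' : y' ^ 2 = x' ^ 3 + c * x') : ∃ a b : k, x = a ^ 2 - x' * b ^ 2 := by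
  have h2 : (2 : k) ≠ 0 := two_ne_zero
  by_cases e1 : x = x'
  · refine ⟨0, i, ?_⟩
    rw [hi, e1]
    ring
  by_cases e2 : x = -x'
  · refine ⟨0, 1, ?_⟩
    rw [e2]
    ring
  have hD1 : x - x' ≠ 0 := sub_ne_zero.2 e1
  have hD2 : x + x' ≠ 0 := fun h0 => e2 (eq_neg_of_add_eq_zero_left h0)
  obtain ⟨B, hB⟩ : ∃ B : k, x' * B ^ 2 = x' ^ 2 + c := by
    refine ⟨y' / x', ?_⟩
    rw [div_pow, h']
    field_simp
  obtain ⟨u1, hu1⟩ : ∃ u1 : k, u1 = x ^ 2 + i * x * x' := ⟨_, rfl⟩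
  obtain ⟨w1, hw1⟩ : ∃ w1 : k, w1 = x * (1 + i) := ⟨_, rfl⟩
  have n1 : u1 ^ 2 - x * x' * w1 ^ 2 = x ^ 2 * (x ^ 2 - x' ^ 2) := by
    rw [hu1, hw1]
    linear_combination (x ^ 2 * x' ^ 2 - x ^ 3 * x') * hi
  have n2 : y ^ 2 - x * x' * B ^ 2 = x * (x ^ 2 - x' ^ 2) := by
    linear_combination h - x * hB
  have n3 : (u1 * y + x * x' * w1 * B) ^ 2 - x * x' * (u1 * B + w1 * y) ^ 2 = x * (x * (x - x') * (x + x')) ^ 2 := by
    have e3 : (u1 * y + x * x' * w1 * B) ^ 2 - x * x' * (u1 * B + w1 * y) ^ 2 =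
        (u1 ^ 2 - x * x' * w1 ^ 2) * (y ^ 2 - x * x' * B ^ 2) := by ring
    rw [e3, n1, n2]
    ring
  obtain ⟨D, hD⟩ : ∃ D : k, D = x * (x - x') * (x + x') := ⟨_, rfl⟩
  have hD0 : D ≠ 0 := by
    rw [hD]
    exact mul_ne_zero (mul_ne_zero hx hD1) hD2
  rw [← hD] at n3
  obtain ⟨u, w, huw⟩ : ∃ u w : k, x = u ^ 2 - x * x' * w ^ 2 := by
    refine ⟨(u1 * y + x * x' * w1 * B) / D, (u1 * B + w1 * y) / D, ?_⟩
    have e4 : ((u1 * y + x * x' * w1 * B) / D) ^ 2 - x * x' * ((u1 * B + w1 * y) / D) ^ 2 =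
        ((u1 * y + x * x' * w1 * B) ^ 2 - x * x' * (u1 * B + w1 * y) ^ 2) / D ^ 2 := by
      rw [div_pow, div_pow]
      ring
    rw [e4, n3, mul_div_assoc, div_self (pow_ne_zero 2 hD0), mul_one]
  by_cases hu : u = 0
  · have hw : w ≠ 0 := by
      rintro rfl
      rw [hu] at huw
      apply hx
      rw [huw]
      ring
    have e5 : 1 = -(x' * w ^ 2) := by
      apply mul_left_cancel₀ hx
      rw [hu] at huw
      linear_combination huw
    have hi0 : i ≠ 0 := by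
      rintro rfl
      norm_num at hi
    refine ⟨(x + 1) / 2, (x - 1) / (2 * (i / w)), ?_⟩
    have e6 : x' = (i / w) ^ 2 := by
      rw [div_pow, hi]
      field_simp
      linear_combination e5
    rw [e6]
    field_simp
    ring
  · refine ⟨x / u, i * x * w / u, ?_⟩
    have e7 : (x / u) ^ 2 - x' * (i * x * w / u) ^ 2 = x * (x - x' * i ^ 2 * x * w ^ 2) / u ^ 2 := by
      rw [div_pow, div_pow]
      ring
    have e8 : x - x' * i ^ 2 * x * w ^ 2 = u ^ 2 := by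
      rw [hi]
      linear_combination huw
    rw [e7, e8, mul_div_assoc, div_self (pow_ne_zero 2 hu), mul_one]

end Pool.Agent.H60R
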