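import Pool.Agent.Lib.H60R.Defs
import Pool.Agent.Lib.H60R.D01

/-!
# D02 (S/M): isotropy of the local images

PROOF. Unfold `Wl`. If `emb d` is a square `s²` (`s ≠ 0`): `a = s, b = 0`. If `emb d'` is a nonzero square `s²`, then every `x` is `a² - s² b²` with
`a = (x+1)/2`, `b = (x-1)/(2s)`. Otherwise `emb d = x s²`, `emb d' = x' s'²` with points `(x, y)`, `(x', y')` of `y² = x³ + (emb c)² x`: `isotropy` (D01) with the
element `emb v i`, then `emb d = (s a)² - x' (s b)² = (s a)² - emb d' (s b / s')²`. `Fc F v` has characteristic 0 (`emb v` is injective; a local instance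
`charZero_of_injective_ringHom (emb v).injective`).
-/

set_option autoImplicit false

open NumberField IsDedekindDomain WeierstrassCurve WeierstrassCurve.Affine
open Pool.Agent.H60.UDef CFT
open scoped WithZero

namespace Pool.Agent.H60R

theorem wl_iso {F : Type} [Field F] [NumberField F] {i : F} (hi : i ^ 2 = -1) (v : Pr F) {c d d' : F}
    (hd : Wl v c d) (hd' : Wl v c d') : ∃ a b : Fc F v, emb v d = a ^ 2 - emb v d' * b ^ 2 := by
  have hch : CharZero (Fc F v) := charZero_of_injective_ringHom (emb v).injective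
  have hie : (emb v i) ^ 2 = -1 := by rw [← map_pow, hi, map_neg, map_one]
  rcases hd with ⟨s, hs, e⟩ | ⟨x, y, hx, hxy, s, hs, e⟩
  · exact ⟨s, 0, by rw [e]; ring⟩
  · rcases hd' with ⟨s', hs', e'⟩ | ⟨x', y', hx', hxy', s', hs', e'⟩
    · refine ⟨(emb v d + 1) / 2, (emb v d - 1) / (2 * s'), ?_⟩
      rw [e']
      have h2 : (2 : Fc F v) ≠ 0 := two_ne_zero
      field_simp
      ring
    · obtain ⟨a, b, hab⟩ := isotropy hie hx hx' hxy hxy'
      refine ⟨a * s, b * s / s', ?_⟩
      rw [e, e', hab]
      field_simp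

end Pool.Agent.H60R
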