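import Pool.Agent.Lib.H60R.Defs
import Pool.Agent.Lib.H60R.D03

/-!
# D05 (M): the local image at an odd prime where `c` has odd order

PROOF. `va 2 = 1`, `va 4 = 1` (2 is not in `v`; `va_emb`, `HeightOneSpectrum.valuation_eq_one`-type lemma). If `emb d = s²`: done. Otherwise `y² = x³ + c² x`, `emb d = x s²`; `va (emb d) = exp (-od v d)` with
`od v d` even, so `va x` is an even power `exp (2 j)` and `va (emb c)` is an odd one: they are different.
If `va x > va c`: `x² + c² = x² (1 + (c/x)²)`, `va ((c/x)²) < 1`, `1 + (c/x)² = t²` by `sqrt_near`, `y² = x³ t²`, `x = (y/(x t))²`.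
If `va x < va c`: `y² = x c² (1 + (x/c)²) = x c² t²`, `x = (y/(c t))²`. (`t ≠ 0`.) So `emb d` is a square; nonzero.
-/

set_option autoImplicit false

open NumberField IsDedekindDomain WeierstrassCurve WeierstrassCurve.Affine
open Pool.Agent.H60.UDef CFT
open scoped WithZero

namespace Pool.Agent.H60R

theorem d05_sq {F : Type} [Field F] [NumberField F] (v : Pr F) (h4 : va v 4 = 1) {t : Fc F v} (h : va v t < 1) :
    ∃ s : Fc F v, s ≠ 0 ∧ s ^ 2 = 1 + t := by
  obtain ⟨s, hs, -⟩ := sqrt_near v (t := 1 + t) (by rw [add_sub_cancel_left, h4]; exact h)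
  refine ⟨s, ?_, hs⟩
  rintro rfl
  have h1 : t = -1 := by
    have : (1 : Fc F v) + t = 0 := by rw [← hs]; ring
    exact (neg_eq_of_add_eq_zero_right this).symm
  rw [h1, Valuation.map_neg, map_one] at h
  exact lt_irrefl _ h

theorem wl_odd {F : Type} [Field F] [NumberField F] (v : Pr F) (h2 : (2 : 𝓞 F) ∉ v.asIdeal) {c d : F} (hc : Odd (od v c)) (hd0 : d ≠ 0)
    (hd : Even (od v d)) (h : Wl v c d) : SqE (emb v d) 1 := by
  have h4 : va v (4 : Fc F v) = 1 := by
    have h1 : (4 : Fc F v) = emb v (((2 : 𝓞 F) : F) * ((2 : 𝓞 F) : F)) := by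
      have h0 : ((2 : 𝓞 F) : F) = (2 : F) := map_ofNat (algebraMap (𝓞 F) F) 2
      rw [h0, map_mul, map_ofNat]
      norm_num
    rw [h1, va_emb, map_mul]
    have h3 : v.valuation F ((2 : 𝓞 F) : F) = 1 := by
      refine le_antisymm (v.valuation_le_one _) (not_lt.1 fun h5 => h2 ?_)
      have h6 := (HeightOneSpectrum.valuation_lt_one_iff_mem (K := F) v (2 : 𝓞 F)).1 h5
      exact h6
    rw [h3, one_mul]
  have hc0 : c ≠ 0 := by
    rintro rfl
    rw [od_zero] at hc
    exact absurd hc (by decide)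
  rcases h with h | ⟨x, y, hx, hy, hs⟩
  · exact h
  refine hs.trans ?_
  obtain ⟨s, hs0, hs⟩ := hs
  have hcc : emb v c ≠ 0 := (map_ne_zero (emb v)).2 hc0
  -- the valuations differ
  have hvx : va v x * va v s ^ 2 = WithZero.exp (-od v d) := by
    rw [← map_pow, ← map_mul, ← hs, va_emb, val_eq v hd0]
  have hvc : va v (emb v c) = WithZero.exp (-od v c) := by rw [va_emb, val_eq v hc0]
  have hne : va v x ≠ va v (emb v c) := by
    intro he
    rw [he, hvc] at hvx
    have hs1 : va v s ≠ 0 := (Valuation.ne_zero_iff _).2 hs0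
    have h1 := congrArg WithZero.log hvx
    rw [WithZero.log_mul (by exact WithZero.coe_ne_zero) (pow_ne_zero 2 hs1), WithZero.log_exp, WithZero.log_exp,
      WithZero.log_pow] at h1
    obtain ⟨m, hm⟩ := hc
    obtain ⟨n, hn⟩ := hd
    rw [hm, hn] at h1
    simp only [smul_eq_mul, nsmul_eq_mul, Nat.cast_ofNat] at h1
    omega
  rcases lt_or_gt_of_ne hne with hlt | hgt
  · -- x small
    obtain ⟨t, ht0, ht⟩ := d05_sq v h4 (t := (x / emb v c) ^ 2) (by
      rw [map_pow, map_div₀]
      exact pow_lt_one₀ zero_le ((div_lt_one₀ (zero_lt_iff.2 ((Valuation.ne_zero_iff _).2 hcc))).2 hlt) two_ne_zero)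
    refine ⟨y / (emb v c * t), ?_, ?_⟩
    · have hy0 : y ≠ 0 := by
        rintro rfl
        have h1 : x * (emb v c * t) ^ 2 = 0 := by
          rw [mul_pow, ht]
          field_simp
          linear_combination -hy
        exact (mul_ne_zero hx (pow_ne_zero 2 (mul_ne_zero hcc ht0))) h1
      exact div_ne_zero hy0 (mul_ne_zero hcc ht0)
    · rw [one_mul, div_pow, eq_div_iff (pow_ne_zero 2 (mul_ne_zero hcc ht0)), mul_pow, ht, hy]
      field_simp
      ring
  · obtain ⟨t, ht0, ht⟩ := d05_sq v h4 (t := (emb v c / x) ^ 2) (by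
      rw [map_pow, map_div₀]
      exact pow_lt_one₀ zero_le ((div_lt_one₀ (zero_lt_iff.2 ((Valuation.ne_zero_iff _).2 hx))).2 hgt) two_ne_zero)
    refine ⟨y / (x * t), ?_, ?_⟩
    · have hy0 : y ≠ 0 := by
        rintro rfl
        have h1 : x * (x * t) ^ 2 = 0 := by
          rw [mul_pow, ht]
          field_simp
          linear_combination -hy
        exact (mul_ne_zero hx (pow_ne_zero 2 (mul_ne_zero hx ht0))) h1
      exact div_ne_zero hy0 (mul_ne_zero hx ht0)
    · rw [one_mul, div_pow, eq_div_iff (pow_ne_zero 2 (mul_ne_zero hx ht0)), mul_pow, ht, hy]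
      field_simp

end Pool.Agent.H60R
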