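import Pool.Agent.Lib.H60R.Defs
import Pool.Agent.Lib.CFT.B06
import Pool.Agent.Lib.CFT.B16
import Pool.Agent.Lib.CFT.B15
import Pool.Agent.Lib.CFT.B03
import Pool.Agent.Lib.H60R.D07

/-!
# D08 (M): `F(√d)` is unramified at `v` if `v` does not divide 2 and `d` has even order at `v`

PROOF. `w` above `v`, `unr_of_inertia` (B16): let `s` with `s x - x ∈ w` for all `x ∈ O_L`, suppose `s ≠ 1`, so `s δ = -δ`. Choose `t ∈ F^*` with `od v t = (od v d)/2`
(`b15_ex` in B15, or a power of a uniformizer) and `δ' = δ/t`, `δ'² = d/t²`, of order 0 at `v`. Choose `c ∈ O_F`, `c ∉ v`, with `c² d/t² ∈ O_F` (B03: denominators prime to `v`); then `x = c δ'` is integral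
(`x² ∈ O_F`), `s x = -x`, so `2 x ∈ w`, so `4 x² ∈ w ∩ O_F = v`; but `4 c² (d/t²)` has order 0 at `v`. Contradiction.
-/

set_option autoImplicit false

open NumberField IsDedekindDomain WeierstrassCurve WeierstrassCurve.Affine
open Pool.Agent.H60.UDef CFT
open scoped WithZero

namespace Pool.Agent.H60R

/-- An integral element close to `δ`. -/
theorem d08_int {F : Type} [Field F] [NumberField F] {L : Type} [Field L] [NumberField L] [Algebra F L] {d : F} {δ : L} (hd0 : d ≠ 0)
    (hδ : δ ^ 2 = algebraMap F L d) (v : Pr F) (he : Even (od v d)) :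
    ∃ (r : F) (x : 𝓞 L) (y : 𝓞 F), r ≠ 0 ∧ (x : L) = algebraMap F L r * δ ∧ x ^ 2 = algebraMap (𝓞 F) (𝓞 L) y ∧ y ∉ v.asIdeal := by
  obtain ⟨m, hm⟩ := he
  obtain ⟨t, ht0, ht⟩ := b15_ex v (-m)
  have hx0 : t * t * d ≠ 0 := mul_ne_zero (mul_ne_zero ht0 ht0) hd0
  have hod : od v (t * t * d) = 0 := by
    rw [od_mul v (mul_ne_zero ht0 ht0) hd0, od_mul v ht0 ht0, ht, hm]
    ring
  obtain ⟨a, b, hb0, hab, hbv⟩ := frac_prime {v} (x := t * t * d) (fun u hu => by
    rw [Finset.mem_singleton] at hu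
    rw [hu, hod])
  have hbv' : b ∉ v.asIdeal := hbv v (Finset.mem_singleton_self v)
  have hb' : (b : F) ≠ 0 := fun h => hb0 (RingOfIntegers.coe_eq_zero_iff.1 h)
  have ha0 : a ≠ 0 := by
    rintro rfl
    apply hx0
    rw [hab]
    simp
  -- b t δ is integral, its square is b a
  have hsq : (algebraMap F L (b * t) * δ) ^ 2 = algebraMap F L ((a * b : 𝓞 F) : F) := by
    rw [mul_pow, hδ, ← map_pow, ← map_mul]
    congr 1
    have h1 : ((a * b : 𝓞 F) : F) = (a : F) * (b : F) := map_mul (algebraMap (𝓞 F) F) a b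
    have h2 : (a : F) = t * t * d * b := by
      rw [hab]
      field_simp
    rw [h1, h2]
    ring
  have hint : IsIntegral ℤ (algebraMap F L (b * t) * δ) := by
    refine IsIntegral.of_pow (n := 2) (by norm_num) ?_
    rw [hsq]
    exact (RingOfIntegers.isIntegral_coe (a * b)).algebraMap
  have hav : a ∉ v.asIdeal := by
    intro h
    have h1 := (od_pos_iff v ha0).2 h
    have h2 : od v (b : F) = 0 := by
      refine le_antisymm (not_lt.1 fun h3 => hbv' ((od_pos_iff v hb0).1 h3)) (od_nonneg v b)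
    have h3 : (a : F) = t * t * d * b := by
      rw [hab]
      field_simp
    rw [h3, od_mul v hx0 hb', hod, h2] at h1
    exact absurd h1 (by norm_num)
  obtain ⟨x, hx⟩ : ∃ x : 𝓞 L, (x : L) = algebraMap F L (b * t) * δ := ⟨⟨algebraMap F L (b * t) * δ, hint⟩, rfl⟩
  refine ⟨b * t, x, a * b, mul_ne_zero hb' ht0, hx, ?_, fun h => ?_⟩
  · apply RingOfIntegers.ext
    show (x : L) ^ 2 = algebraMap F L ((a * b : 𝓞 F) : F)
    rw [hx]
    exact hsq
  · rcases v.isPrime.mem_or_mem h with h | h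
    · exact hav h
    · exact hbv' h

theorem quad_unr {F : Type} [Field F] [NumberField F] {L : Type} [Field L] [NumberField L] [Algebra F L] {d : F} {δ : L} (hd0 : d ≠ 0)
    (hd : ¬ IsSquare d) (hδ : δ ^ 2 = algebraMap F L d) (h2 : Module.finrank F L = 2) (v : Pr F) (hv2 : (2 : 𝓞 F) ∉ v.asIdeal)
    (he : Even (od v d)) : Unr F L v := by
  have hgal : IsGalois F L := quad_galois h2
  intro w hw
  refine unr_of_inertia w fun s hs => ?_
  by_contra hne
  obtain ⟨χ, hχ, hχs⟩ := sgn_exists hd hδ h2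
  have hs1 : s δ = -δ := by
    rcases Int.units_eq_one_or (χ s) with h | h
    · exact absurd (hχ (h.trans (map_one χ).symm)) hne
    · rw [hχs s, h]
      simp
  obtain ⟨r, x, y, hr, hx, hxy, hy⟩ := d08_int hd0 hδ v he
  have h3 := hs x
  have h4 : s • x - x = -(2 * x) := by
    apply RingOfIntegers.ext
    have h5 : ((s • x : 𝓞 L) : L) = s (x : L) := rfl
    have h6 : s (x : L) = -(x : L) := by
      rw [hx, map_mul, hs1, AlgEquiv.commutes]
      ring
    show s (x : L) - (x : L) = -(2 * (x : L))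
    rw [h6]
    ring
  rw [h4, neg_mem_iff] at h3
  have h7 : (algebraMap (𝓞 F) (𝓞 L) (4 * y)) ∈ w.asIdeal := by
    have h8 := w.asIdeal.mul_mem_left (2 * x) h3
    have h9 : 2 * x * (2 * x) = algebraMap (𝓞 F) (𝓞 L) (4 * y) := by
      rw [map_mul, ← hxy, map_ofNat]
      ring
    rwa [h9] at h8
  have h10 : 4 * y ∈ v.asIdeal := by
    rw [← hw]
    exact h7
  rcases v.isPrime.mem_or_mem h10 with h | h
  · have h11 : (2 : 𝓞 F) * 2 ∈ v.asIdeal := by
      have : (2 : 𝓞 F) * 2 = 4 := by norm_num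
      rwa [this]
    rcases v.isPrime.mem_or_mem h11 with h | h
    · exact hv2 h
    · exact hv2 h
  · exact hy h

end Pool.Agent.H60R
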