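import Pool.Agent.Lib.H60R.Defs
import Pool.Agent.Lib.CFT.B06
import Pool.Agent.Lib.CFT.B17
import Pool.Agent.Lib.CFT.B03
import Pool.Agent.Lib.H60R.D04
import Pool.Agent.Lib.H60R.D07
import Pool.Agent.Lib.H60R.D08

/-!
# D09 (M): if Frobenius at `v` is not trivial, `d` is not a square in the completion

PROOF. Suppose `emb d = s²`. With `dense` (D04) choose `b ∈ F` close to `s`: `va (s - emb b) < va s · (small)`, so that `v.valuation (b²/d - 1) < 1`. Let `w` be above `v` (`below_surj`, B06), `g = frob F L v ≠ 1`, so `g δ = -δ`. Put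
`u = b/δ ∈ L` (`u² = b²/d`, so `w.valuation (u² - 1) < 1` (`od_alg`, B06), `w.valuation u = 1`). `(u - 1)(u + 1)` has valuation `< 1`, so one factor, say `u - ε` (`ε = ± 1`) has valuation `< 1`. `g u = -u`.
`g` preserves the valuation of `w`: `g` is a Frobenius element (`frob_spec`, B17): for `x ∈ O_L`, `x ∈ w` iff `g x ∈ w` (`g x - x^q ∈ w`); an element of `L` of valuation `< 1` is a quotient of an element of `w` by one outside `w`
(B03). So `w.valuation (-u - ε) < 1` and, adding, `w.valuation (2 ε) < 1`, contradiction with `2 ∉ v`.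
-/

set_option autoImplicit false

open NumberField IsDedekindDomain WeierstrassCurve WeierstrassCurve.Affine
open Pool.Agent.H60.UDef CFT
open scoped WithZero

namespace Pool.Agent.H60R

/-- A square root modulo `v`. -/
theorem d09_root {F : Type} [Field F] [NumberField F] (v : Pr F) {y : 𝓞 F} (hy : y ∉ v.asIdeal) {s : Fc F v} (hs : s ^ 2 = emb v (y : F)) :
    ∃ a b : 𝓞 F, a ∉ v.asIdeal ∧ b ∉ v.asIdeal ∧ y * b ^ 2 - a ^ 2 ∈ v.asIdeal := by
  have hvy : va v (emb v (y : F)) = 1 := by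
    rw [va_emb]
    refine le_antisymm (v.valuation_le_one _) (not_lt.1 fun h5 => hy ?_)
    exact (HeightOneSpectrum.valuation_lt_one_iff_mem (K := F) v y).1 h5
  have hvs : va v s = 1 := by
    have h1 : va v s ^ 2 = 1 := by rw [← map_pow, hs, hvy]
    exact (pow_eq_one_iff_of_nonneg zero_le two_ne_zero).1 h1
  obtain ⟨b, hb⟩ := dense v s 0
  rw [Nat.cast_zero, neg_zero, WithZero.exp_zero] at hb
  have hvb : va v (emb v b) = 1 := by
    have h1 : emb v b = s - (s - emb v b) := by ring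
    rw [h1, Valuation.map_sub_eq_of_lt_left _ (by rw [hvs]; exact hb), hvs]
  have hb0 : b ≠ 0 := by
    rintro rfl
    rw [map_zero, map_zero] at hvb
    exact zero_ne_one hvb
  have hod : od v b = 0 := by
    unfold od
    rw [← va_emb, hvb, WithZero.log_one, neg_zero]
  obtain ⟨b1, b2, hb2, hb12, hbv⟩ := frac_prime {v} (x := b) (fun u hu => by
    rw [Finset.mem_singleton] at hu
    rw [hu, hod])
  have hb2' : (b2 : F) ≠ 0 := fun h => hb2 (RingOfIntegers.coe_eq_zero_iff.1 h)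
  have hb1 : (b1 : F) = b * b2 := by
    rw [hb12]
    field_simp
  have hmem : y * b2 ^ 2 - b1 ^ 2 ∈ v.asIdeal := by
    refine (HeightOneSpectrum.valuation_lt_one_iff_mem (K := F) v (y * b2 ^ 2 - b1 ^ 2)).1 ?_
    show v.valuation F ((y * b2 ^ 2 - b1 ^ 2 : 𝓞 F) : F) < 1
    have e : ((y * b2 ^ 2 - b1 ^ 2 : 𝓞 F) : F) = (b2 : F) ^ 2 * ((y : F) - b ^ 2) := by
      show (y : F) * (b2 : F) ^ 2 - (b1 : F) ^ 2 = _
      rw [hb1]
      ring
    rw [e, map_mul, map_pow]
    have h1 : v.valuation F ((y : F) - b ^ 2) < 1 := by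
      rw [← va_emb, map_sub, map_pow, ← hs]
      have h2 : s ^ 2 - emb v b ^ 2 = (s - emb v b) * (s + emb v b) := by ring
      rw [h2, map_mul]
      have h3 : va v (s + emb v b) ≤ 1 := Valuation.map_add_le _ hvs.le hvb.le
      calc va v (s - emb v b) * va v (s + emb v b) ≤ va v (s - emb v b) * 1 := mul_le_mul_right h3 _
        _ = va v (s - emb v b) := mul_one _
        _ < 1 := hb
    have h4 : v.valuation F (b2 : F) ^ 2 ≤ 1 := pow_le_one' (v.valuation_le_one b2) 2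
    calc v.valuation F (b2 : F) ^ 2 * v.valuation F ((y : F) - b ^ 2) ≤ 1 * v.valuation F ((y : F) - b ^ 2) := mul_le_mul_left h4 _
      _ = v.valuation F ((y : F) - b ^ 2) := one_mul _
      _ < 1 := h1
  have hb2v := hbv v (Finset.mem_singleton_self v)
  refine ⟨b1, b2, fun h => ?_, hb2v, hmem⟩
  have h5 : y * b2 ^ 2 ∈ v.asIdeal := by
    have h6 : y * b2 ^ 2 = (y * b2 ^ 2 - b1 ^ 2) + b1 * b1 := by ring
    rw [h6]
    exact v.asIdeal.add_mem hmem (v.asIdeal.mul_mem_left _ h)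
  rcases v.isPrime.mem_or_mem h5 with h | h
  · exact hy h
  · exact hb2v (v.isPrime.mem_of_pow_mem 2 h)

theorem not_sq {F : Type} [Field F] [NumberField F] {L : Type} [Field L] [NumberField L] [Algebra F L] {d : F} {δ : L} (hd0 : d ≠ 0)
    (hd : ¬ IsSquare d) (hδ : δ ^ 2 = algebraMap F L d) (h2 : Module.finrank F L = 2) (v : Pr F) (hv2 : (2 : 𝓞 F) ∉ v.asIdeal)
    (hu : Unr F L v) (hfr : frob F L v ≠ 1) : ¬ SqE (emb v d) 1 := by
  rintro ⟨s, hs0, hs⟩
  rw [one_mul] at hs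
  have hgal : IsGalois F L := quad_galois h2
  have hev : Even (od v d) := by
    have h1 : va v s ^ 2 = WithZero.exp (-od v d) := by rw [← map_pow, ← hs, va_emb, val_eq v hd0]
    have h3 := congrArg WithZero.log h1
    rw [WithZero.log_pow, WithZero.log_exp, nsmul_eq_mul] at h3
    refine ⟨-WithZero.log (va v s), ?_⟩
    push_cast at h3
    omega
  obtain ⟨r, x, y, hr, hx, hxy, hy⟩ := d08_int hd0 hδ v hev
  have hyF : (y : F) = r ^ 2 * d := by
    have h1 : (x : L) ^ 2 = algebraMap F L (y : F) := congrArg (fun z : 𝓞 L => (z : L)) hxy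
    rw [hx, mul_pow, hδ, ← map_pow, ← map_mul] at h1
    exact ((algebraMap F L).injective h1).symm
  obtain ⟨a, b, ha, hb, hab⟩ := d09_root v hy (s := emb v r * s) (by
    rw [hyF, map_mul, map_pow, hs]
    ring)
  obtain ⟨w, hw⟩ := below_surj (K := F) (L := L) v
  have hmem : ∀ z : 𝓞 F, algebraMap (𝓞 F) (𝓞 L) z ∈ w.asIdeal ↔ z ∈ v.asIdeal := by
    intro z
    rw [← hw]
    rfl
  obtain ⟨g, hg⟩ : ∃ g : L ≃ₐ[F] L, g = frob F L v := ⟨_, rfl⟩
  have hgs := frob_spec (quad_ab h2) hu w hw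
  rw [← hg] at hgs hfr
  have hgw : ∀ z : 𝓞 L, z ∈ w.asIdeal → g • z ∈ w.asIdeal := by
    intro z hz
    have h1 := hgs z
    have h3 : z ^ Nm v ∈ w.asIdeal := w.asIdeal.pow_mem_of_mem hz _ (Nm_pos v)
    have h4 := w.asIdeal.add_mem h1 h3
    rwa [sub_add_cancel] at h4
  obtain ⟨χ, hχ, hχs⟩ := sgn_exists hd hδ h2
  have hs1 : g δ = -δ := by
    rcases Int.units_eq_one_or (χ g) with h | h
    · exact absurd (hχ (h.trans (map_one χ).symm)) hfr
    · rw [hχs g, h]
      simp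
  have hgx : g • x = -x := by
    apply RingOfIntegers.ext
    show g (x : L) = -(x : L)
    rw [hx, map_mul, hs1, AlgEquiv.commutes]
    ring
  have hgF : ∀ z : 𝓞 F, g • (algebraMap (𝓞 F) (𝓞 L) z) = algebraMap (𝓞 F) (𝓞 L) z := by
    intro z
    apply RingOfIntegers.ext
    exact AlgEquiv.commutes g (z : F)
  obtain ⟨A, hA⟩ : ∃ A : 𝓞 L, A = algebraMap (𝓞 F) (𝓞 L) a := ⟨_, rfl⟩
  obtain ⟨B, hB⟩ : ∃ B : 𝓞 L, B = algebraMap (𝓞 F) (𝓞 L) b := ⟨_, rfl⟩
  have hprod : (x * B - A) * (x * B + A) ∈ w.asIdeal := by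
    have h1 : (x * B - A) * (x * B + A) = algebraMap (𝓞 F) (𝓞 L) (y * b ^ 2 - a ^ 2) := by
      rw [map_sub, map_mul, map_pow, map_pow, ← hxy, ← hA, ← hB]
      ring
    rw [h1, hmem]
    exact hab
  have hfin : ∀ C : 𝓞 L, g • C = C → x * B - C ∈ w.asIdeal → 2 * C ∈ w.asIdeal := by
    intro C hC h
    have h1 := hgw _ h
    rw [smul_sub, smul_mul', hgx, hC, hB, hgF, ← hB] at h1
    have h3 := w.asIdeal.add_mem h h1
    have h4 : x * B - C + (-x * B - C) = -(2 * C) := by ring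
    rw [h4, neg_mem_iff] at h3
    exact h3
  have h2A : 2 * A ∈ w.asIdeal := by
    rcases w.isPrime.mem_or_mem hprod with h | h
    · exact hfin A (by rw [hA, hgF]) h
    · have h1 := hfin (-A) (by rw [smul_neg, hA, hgF]) (by rwa [sub_neg_eq_add])
      rwa [mul_neg, neg_mem_iff] at h1
  have h5 : 2 * a ∈ v.asIdeal := by
    rw [← hmem, map_mul, map_ofNat, ← hA]
    exact h2A
  rcases v.isPrime.mem_or_mem h5 with h | h
  · exact hv2 h
  · exact ha h

end Pool.Agent.H60R
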