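import Pool.Agent.Lib.H60R.Defs
import Pool.Agent.Lib.CFT.B07
import Pool.Agent.Lib.CFT.B18
import Pool.Agent.Lib.CFT.Core
import Pool.Agent.Lib.H60R.D06
import Pool.Agent.Lib.H60R.D07
import Pool.Agent.Lib.H60R.D08

/-!
# D10 (S/M): RECIPROCITY. If `d'` is a local norm from `F(√d)` at all places of `S`, its Artin symbol outside `S` is trivial.

PROOF. `S` contains all ramified primes (`quad_unr`, D08: outside `S` the prime does not divide 2 and `d` has even order). `N` from `artin` (Targets), `a, b` from `norm_approx` (D06), `z = a + b δ`, norm `n = a² - d b² ≠ 0` (`quad_norm`),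
`dv d' = dv (d'/n) + dv n`, `art S χ (dv (d'/n)) = 0` (`artin`), `dv n = Nd F L (dv z)` (`Nd_dv`, B07), `art S χ (Nd ..) = 0` (`art_Nd`, B18).
-/

set_option autoImplicit false

open NumberField IsDedekindDomain WeierstrassCurve WeierstrassCurve.Affine
open Pool.Agent.H60.UDef CFT
open scoped WithZero

namespace Pool.Agent.H60R

theorem recip {F : Type} [Field F] [NumberField F] {L : Type} [Field L] [NumberField L] [Algebra F L] {d : F} {δ : L}
    (hreal : ∀ φ : F →+* ℝ, False) (hd : ¬ IsSquare d) (hδ : δ ^ 2 = algebraMap F L d) (h2 : Module.finrank F L = 2)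
    (S : Finset (Pr F)) (hS2 : Ab2 S) (hLS : LS S d) {d' : F} (hd' : d' ≠ 0)
    (h : ∀ v ∈ S, ∃ a b : Fc F v, emb v d' = a ^ 2 - emb v d * b ^ 2) {A : Type} [CommGroup A] (χ : (L ≃ₐ[F] L) →* A) :
    art S χ (dv d') = 0 := by
  have hgal : IsGalois F L := quad_galois h2
  have hS : ∀ v : Pr F, ¬ Unr F L v → v ∈ S := by
    intro v hv
    by_contra hvS
    exact hv (quad_unr hLS.1 hd hδ h2 v (fun h => hvS (hS2 v h)) (hLS.2 v hvS))
  obtain ⟨N, hN⟩ := artin F L (quad_ab h2) S hS
  obtain ⟨a, b, hn, hR⟩ := norm_approx hreal S N hd' h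
  have hz : Algebra.norm F (algebraMap F L a + algebraMap F L b * δ) = a ^ 2 - d * b ^ 2 := quad_norm hd hδ h2 a b
  have hz0 : algebraMap F L a + algebraMap F L b * δ ≠ 0 := by
    intro h0
    have hfin : Module.Finite F L := Module.finite_of_finrank_pos (by rw [h2]; norm_num)
    rw [h0, Algebra.norm_zero] at hz
    exact hn hz.symm
  have e : d' = d' / (a ^ 2 - d * b ^ 2) * (a ^ 2 - d * b ^ 2) := (div_mul_cancel₀ _ hn).symm
  rw [e, dv_mul (div_ne_zero hd' hn) hn, map_add, hN A χ _ hR, zero_add, ← hz, ← Nd_dv hz0]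
  exact art_Nd (quad_ab h2) S hS χ _

end Pool.Agent.H60R
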