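import Pool.Agent.Lib.H60R.Defs
import Pool.Agent.Lib.CFT.B19
import Pool.Agent.Lib.CFT.B15
import Pool.Agent.Lib.CFT.Core
import Pool.Agent.Lib.H60R.D05
import Pool.Agent.Lib.H60R.D02
import Pool.Agent.Lib.H60R.D07
import Pool.Agent.Lib.H60R.D08
import Pool.Agent.Lib.H60R.D09
import Pool.Agent.Lib.H60R.D10
import Pool.Agent.Lib.H60R.D11

/-!
# D12 (M): THE KILLING STEP

PROOF. `L, δ` from `quad_exists` (D07), `χ` from `sgn_exists`. `frob_gen` (Targets; Galois and abelian by D07) with the finite set `S` together with nothing else: since the group is not trivial (it has 2 elements) there is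
`q ∉ S`, `Unr F L q`, with `frob F L q ≠ 1`. `2 ∉ q` by `Ab2 S`. Let `ϖ ∈ F` with `od q ϖ = 1` (uniformizer, `b15_ex` in B15), `κ' = Function.update κ q ϖ`, `S' = insert q S`.
* `d ∉ Wl q ϖ`: `od q d` is even (`LS S d`), `wl_odd` (D05) would give that `d` is a square in the completion, against `not_sq` (D09).
* Let `LS S' d'` and `Wl v (κ' v) d'` for all `v ∈ S'`. For `v ∈ S` (`v ≠ q`) `κ' v = κ v`. If `od q d'` is even then `LS S d'`. Suppose it is odd. For `v ∈ S` `wl_iso` (D02) gives `d' = a² - d b²` at `v`; `recip` (D10): `art S χ (dv d') = 0`;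
  `art_odd` (D11): `≠ 0`. Contradiction.
-/

set_option autoImplicit false

open NumberField IsDedekindDomain WeierstrassCurve WeierstrassCurve.Affine
open Pool.Agent.H60.UDef CFT
open scoped WithZero

namespace Pool.Agent.H60R

theorem d12_frob {F : Type} [Field F] [NumberField F] {L : Type} [Field L] [NumberField L] [Algebra F L]
    (h2 : Module.finrank F L = 2) (S : Finset (Pr F)) : ∃ q : Pr F, q ∉ S ∧ Unr F L q ∧ frob F L q ≠ 1 := by
  have : IsGalois F L := quad_galois h2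
  by_contra hcon
  push Not at hcon
  have h1 := frob_gen F L (quad_ab h2) S
  have h3 : Subgroup.closure {s : L ≃ₐ[F] L | ∃ v : Pr F, v ∉ S ∧ Unr F L v ∧ frob F L v = s} = ⊥ := by
    rw [Subgroup.closure_eq_bot_iff]
    rintro s ⟨v, hv, hu, rfl⟩
    exact hcon v hv hu
  rw [h3] at h1
  have h4 : Nat.card (L ≃ₐ[F] L) = 1 := by
    rw [← Subgroup.card_top, ← h1, Subgroup.card_bot]
  rw [IsGalois.card_aut_eq_finrank, h2] at h4
  exact absurd h4 (by norm_num)

open Classical in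
theorem kill {F : Type} [Field F] [NumberField F] {i : F} (hi : i ^ 2 = -1) (hreal : ∀ φ : F →+* ℝ, False) (S : Finset (Pr F)) (hS2 : Ab2 S)
    (κ : Pr F → F) {d : F} (hLS : LS S d) (hW : ∀ v ∈ S, Wl v (κ v) d) (hd : ¬ IsSquare d) :
    ∃ (q : Pr F) (ϖ : F), q ∉ S ∧ ϖ ≠ 0 ∧ ¬ Wl q ϖ d ∧
      ∀ d' : F, LS (insert q S) d' → (∀ v ∈ insert q S, Wl v (Function.update κ q ϖ v) d') → LS S d' := by
  obtain ⟨L, iL1, iL2, iL3, δ, hδ, h2⟩ := quad_exists hd
  obtain ⟨χ, hχ, -⟩ := sgn_exists hd hδ h2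
  obtain ⟨q, hq, hu, hfr⟩ := d12_frob h2 S
  have hq2 : (2 : 𝓞 F) ∉ q.asIdeal := fun h => hq (hS2 q h)
  obtain ⟨ϖ, hϖ, hϖ1⟩ := b15_ex q 1
  refine ⟨q, ϖ, hq, hϖ, ?_, ?_⟩
  · intro h
    have hodd : Odd (od q ϖ) := by
      rw [hϖ1]
      exact odd_one
    exact not_sq hLS.1 hd hδ h2 q hq2 hu hfr (wl_odd q hq2 hodd hLS.1 (hLS.2 q hq) h)
  · intro d' hd' hw'
    refine ⟨hd'.1, fun v hv => ?_⟩
    by_cases hvq : v = q
    · subst hvq
      by_contra hne
      have hodd : Odd (od v d') := Int.not_even_iff_odd.1 hne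
      have h1 : ∀ u ∈ S, ∃ a b : Fc F u, emb u d' = a ^ 2 - emb u d * b ^ 2 := by
        intro u hu'
        have h3 := hw' u (Finset.mem_insert_of_mem hu')
        have hne' : u ≠ v := fun h => hv (h ▸ hu')
        rw [Function.update_of_ne hne'] at h3
        exact wl_iso hi u h3 (hW u hu')
      have h4 := recip hreal hd hδ h2 S hS2 hLS hd'.1 h1 χ
      refine art_odd χ hχ S hv hfr hodd (fun u hu1 hu2 => hd'.2 u ?_) h4
      rw [Finset.mem_insert, not_or]
      exact ⟨hu2, hu1⟩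
    · refine hd'.2 v ?_
      rw [Finset.mem_insert, not_or]
      exact ⟨hvq, hv⟩

end Pool.Agent.H60R
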