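import Pool.Agent.Lib.H60R.Defs
import Pool.Agent.Lib.H60R.D12
import Pool.Agent.Lib.H60R.D13
import Pool.Agent.Lib.CFT.X00

/-!
# D14 (M): S and kappa with trivial Selmer group

PROOF. `S₀` = the primes above 2 (finite: `m_fin` in CFT/X00, or `Ideal.finite_factors`), `κ₀ = 1`. `R` from `ls_fin` for `S₀`. For a pair `(S, κ)` with `Ab2 S`, `κ v ≠ 0`, and `LS S d ∧ (∀ v ∈ S, Wl v (κ v) d) → LS S₀ d`, let `n(S, κ)` be the number of `r ∈ R` which are not
squares and satisfy `LS S r ∧ ∀ v ∈ S, Wl v (κ v) r`. Strong induction on `n`: if some `d` is not a square with `LS S d`, `Wl`, `kill` (D12) gives `(S', κ')`; the set of good `d'` for `(S', κ')` is contained in the one for `(S, κ)`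
(`LS S' d'` and the last statement give `LS S d'`, and `Wl v (κ v)` for `v ∈ S`) and does not contain `d`. `LS` and `Wl` are invariant under `SqE`, so the representative `r ∈ R` of `d` (`LS S₀ d`) is counted for `(S, κ)` and not for `(S', κ')`:
`n` decreases. At the end every good `d` is a square.
-/

set_option autoImplicit false

open NumberField IsDedekindDomain WeierstrassCurve WeierstrassCurve.Affine
open Pool.Agent.H60.UDef CFT
open scoped WithZero

namespace Pool.Agent.H60R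

theorem d14_ls {F : Type} [Field F] [NumberField F] {S : Finset (Pr F)} {a b : F} (h : SqE a b) (ha : LS S a) : LS S b := by
  obtain ⟨s, hs, e⟩ := h.symm
  refine ⟨h.symm.ne ha.1, fun v hv => ?_⟩
  have h1 : od v b = od v a + (od v s + od v s) := by
    rw [e, pow_two, od_mul v ha.1 (mul_ne_zero hs hs), od_mul v hs hs]
  rw [h1]
  exact (ha.2 v hv).add ⟨od v s, rfl⟩

theorem d14_emb {F : Type} [Field F] [NumberField F] (v : Pr F) {a b : F} (h : SqE a b) : SqE (emb v a) (emb v b) := by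
  obtain ⟨s, hs, e⟩ := h
  refine ⟨emb v s, ?_, by rw [e, map_mul, map_pow]⟩
  exact (map_ne_zero (emb v)).2 hs

theorem d14_wl {F : Type} [Field F] [NumberField F] {v : Pr F} {c a b : F} (h : SqE a b) (ha : Wl v c a) : Wl v c b := by
  have h1 := (d14_emb v h).symm
  rcases ha with h2 | ⟨x, y, hx, hy, h2⟩
  · exact Or.inl (h1.trans h2)
  · exact Or.inr ⟨x, y, hx, hy, h1.trans h2⟩

theorem d14_sq {F : Type} [Field F] {a b : F} (h : SqE a b) (ha : IsSquare b) : IsSquare a := by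
  obtain ⟨s, -, e⟩ := h
  obtain ⟨t, rfl⟩ := ha
  exact ⟨t * s, by rw [e]; ring⟩

open Classical in
theorem d14_ind {F : Type} [Field F] [NumberField F] {i : F} (hi : i ^ 2 = -1) (hreal : ∀ φ : F →+* ℝ, False)
    (S₀ : Finset (Pr F)) (R : Finset F) (hR : ∀ d : F, LS S₀ d → ∃ r ∈ R, SqE d r) (n : ℕ) :
    ∀ (S : Finset (Pr F)) (κ : Pr F → F), Ab2 S → (∀ v, κ v ≠ 0) →
      (∀ d, LS S d → (∀ v ∈ S, Wl v (κ v) d) → LS S₀ d) →
      (R.filter (fun r => ¬ IsSquare r ∧ LS S r ∧ ∀ v ∈ S, Wl v (κ v) r)).card ≤ n →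
      ∃ (S : Finset (Pr F)) (κ : Pr F → F), Ab2 S ∧ (∀ v, κ v ≠ 0) ∧
        ∀ d : F, LS S d → (∀ v ∈ S, Wl v (κ v) d) → IsSquare d := by
  induction n with
  | zero =>
    intro S κ h2 hκ h0 hc
    refine ⟨S, κ, h2, hκ, fun d hd hw => ?_⟩
    by_contra hsq
    obtain ⟨r, hr, hdr⟩ := hR d (h0 d hd hw)
    have h1 : r ∈ R.filter (fun r => ¬ IsSquare r ∧ LS S r ∧ ∀ v ∈ S, Wl v (κ v) r) :=
      Finset.mem_filter.2 ⟨hr, fun h => hsq (d14_sq hdr h), d14_ls hdr hd, fun v hv => d14_wl hdr (hw v hv)⟩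
    have := Finset.card_pos.2 ⟨r, h1⟩
    omega
  | succ n ih =>
    intro S κ h2 hκ h0 hc
    by_cases hgood : ∀ d : F, LS S d → (∀ v ∈ S, Wl v (κ v) d) → IsSquare d
    · exact ⟨S, κ, h2, hκ, hgood⟩
    push Not at hgood
    obtain ⟨d, hd, hw, hsq⟩ := hgood
    obtain ⟨q, ϖ, hq, hϖ, hnW, hkill⟩ := kill hi hreal S h2 κ hd hw hsq
    have hback : ∀ d' : F, LS (insert q S) d' → (∀ v ∈ insert q S, Wl v (Function.update κ q ϖ v) d') →
        ∀ v ∈ S, Wl v (κ v) d' := by
      intro d' _ hw' v hv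
      have h1 := hw' v (Finset.mem_insert_of_mem hv)
      have hne : v ≠ q := fun h => hq (h ▸ hv)
      rwa [Function.update_of_ne hne] at h1
    refine ih (insert q S) (Function.update κ q ϖ) (fun v hv => Finset.mem_insert_of_mem (h2 v hv)) ?_ ?_ ?_
    · intro v
      by_cases hv : v = q
      · rw [hv, Function.update_self]
        exact hϖ
      · rw [Function.update_of_ne hv]
        exact hκ v
    · intro d' hd' hw'
      exact h0 d' (hkill d' hd' hw') (hback d' hd' hw')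
    · obtain ⟨r, hr, hdr⟩ := hR d (h0 d hd hw)
      have h1 : r ∈ R.filter (fun r => ¬ IsSquare r ∧ LS S r ∧ ∀ v ∈ S, Wl v (κ v) r) :=
        Finset.mem_filter.2 ⟨hr, fun h => hsq (d14_sq hdr h), d14_ls hdr hd, fun v hv => d14_wl hdr (hw v hv)⟩
      have h3 : R.filter (fun r => ¬ IsSquare r ∧ LS (insert q S) r ∧
          ∀ v ∈ insert q S, Wl v (Function.update κ q ϖ v) r) ⊂
          R.filter (fun r => ¬ IsSquare r ∧ LS S r ∧ ∀ v ∈ S, Wl v (κ v) r) := by
        refine Finset.ssubset_iff_subset_ne.2 ⟨?_, ?_⟩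
        · intro r' hr'
          obtain ⟨hr1, hr2, hr3, hr4⟩ := Finset.mem_filter.1 hr'
          exact Finset.mem_filter.2 ⟨hr1, hr2, hkill r' hr3 hr4, hback r' hr3 hr4⟩
        · intro heq
          rw [← heq] at h1
          obtain ⟨hr1, hr2, hr3, hr4⟩ := Finset.mem_filter.1 h1
          have h5 := hr4 q (Finset.mem_insert_self q S)
          rw [Function.update_self] at h5
          exact hnW (d14_wl hdr.symm h5)
      have h4 := Finset.card_lt_card h3
      omega

theorem selmer_trivial {F : Type} [Field F] [NumberField F] {i : F} (hi : i ^ 2 = -1) (hreal : ∀ φ : F →+* ℝ, False) :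
    ∃ (S : Finset (Pr F)) (κ : Pr F → F), Ab2 S ∧ (∀ v, κ v ≠ 0) ∧ ∀ d : F, LS S d → (∀ v ∈ S, Wl v (κ v) d) → IsSquare d := by
  classical
  obtain ⟨S₀, hS₀⟩ : ∃ S₀ : Finset (Pr F), S₀ = (m_fin F 2).toFinset := ⟨_, rfl⟩
  have h2 : Ab2 S₀ := by
    intro v hv
    rw [hS₀, Set.Finite.mem_toFinset]
    exact_mod_cast hv
  obtain ⟨R, hR⟩ := ls_fin S₀
  exact d14_ind hi hreal S₀ R hR _ S₀ (fun _ => 1) h2 (fun _ => one_ne_zero) (fun d hd _ => hd) le_rfl

end Pool.Agent.H60R
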