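import Pool.Agent.Lib.H60R.Defs
import Pool.Agent.Lib.H60R.D15

/-!
# D16 (M): points with square image are divisible by `1 + i`

PROOF. `al P` a square. `P = 0`: `Q = 0`. `P = (x, y)`, `x = w²`, `w ≠ 0` (`x = al P`): put `u = i (w² + y/w)`, `v = (1 + i) w u`. `u ≠ 0` because `u · i (w² - y/w) = -(w⁴ - y²/w²) = -(x² - y²/x) = k ≠ 0`. `u² - 2 i w² u + k = 0`, so `v² = 2 i w² u² = u (u² + k)`: `R = (u, v)` is a point. `R + iac R`: the points
`(u, v)`, `(-u, i v)` have different abscissas, slope `l = (v - i v)/(2u)`, `x = l² = v² (1-i)²/(4u²) = -i v²/(2 u²) = w²`, and `y' = l (u - x) - v`. Then `R + iac R` has abscissa `w² = x`, so it is `P` or `-P`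
(equal abscissas; `IsAt.neg`); in the second case take `-R`. `P = (0, y)`: `y = 0`, `al P = k` is a square `s²`: then `P = T` and `T = R + iac R` with `R = (i s, 0)`: `R + iac R = (is, 0) + (-is, 0)`, slope 0, abscissa 0: fine.
(`(is)³ + k is = is(-s² + k) = 0`.)
`one_add_i_zero`: `R + iac R = 0` means `iac R = -R`: `R = 0` or `-x = x`, so `x = 0`, `R = T`.
-/

set_option autoImplicit false

open NumberField IsDedekindDomain WeierstrassCurve WeierstrassCurve.Affine
open Pool.Agent.H60.UDef CFT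
open scoped WithZero

namespace Pool.Agent.H60R

theorem d16_i {F : Type} [Field F] {i : F} (hi : i ^ 2 = -1) : i ≠ 0 := by
  rintro rfl
  rw [zero_pow two_ne_zero] at hi
  exact one_ne_zero (neg_eq_zero.1 hi.symm)

theorem d16_neg {F : Type} [Field F] [CharZero F] {u : F} (hu : u ≠ 0) : u ≠ -u := by
  intro h
  apply hu
  have : 2 * u = 0 := by linear_combination h
  simpa using this

open Classical in
theorem div_one_add_i {F : Type} [Field F] [CharZero F] {k i : F} (hk : k ≠ 0) (hi : i ^ 2 = -1) (P : Ek k) (h : IsSquare (al P)) :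
    ∃ R : Ek k, P = R + iac i R := by
  by_cases hP : P = 0
  · exact ⟨0, by rw [hP, iac_zero, zero_add]⟩
  obtain ⟨x, y, h₁⟩ := exists_isAt hP
  have E := ek_eqn h₁
  by_cases hx : x = 0
  · rw [hx] at h₁
    rw [al_T h₁] at h
    obtain ⟨s, hs⟩ := h
    have hs0 : s ≠ 0 := by
      rintro rfl
      rw [mul_zero] at hs
      exact hk hs
    have hy : y = 0 := by
      have : y ^ 2 = 0 := by rw [E, hx]; ring
      exact pow_eq_zero_iff (two_ne_zero) |>.1 this
    obtain ⟨R, hR⟩ := ek_nonsing (x := i * s) (y := 0) hk (by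
      rw [hs]
      linear_combination (-i * s ^ 3) * hi)
    have hR2 := iac_isAt hk hi hR
    have hu : i * s ≠ 0 := mul_ne_zero (d16_i hi) hs0
    have h3 := hR.add hR2 (d16_neg hu)
    refine ⟨R, h₁.ext (d15_mono h3 ?_ ?_)⟩
    · rw [mul_zero, sub_zero, zero_div]
      ring
    · rw [mul_zero, sub_self, zero_div, hy]
      ring
  · rw [al_isAt h₁ hx] at h
    obtain ⟨w, hw⟩ := h
    have hw0 : w ≠ 0 := by
      rintro rfl
      rw [mul_zero] at hw
      exact hx hw
    obtain ⟨z, hz⟩ : ∃ z : F, y = z * w := ⟨y / w, by field_simp⟩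
    have hz2 : z ^ 2 = w ^ 4 + k := by
      have h2 : w ^ 2 ≠ 0 := pow_ne_zero 2 hw0
      apply mul_left_cancel₀ h2
      rw [hz, hw] at E
      linear_combination E
    set u : F := i * (w ^ 2 + z) with hu
    have hu2 : u ^ 2 + k = 2 * i * w ^ 2 * u := by
      rw [hu]
      linear_combination (z ^ 2 - w ^ 4) * hi - hz2
    have hu0 : u ≠ 0 := by
      intro h0
      rw [h0] at hu2
      apply hk
      linear_combination hu2
    obtain ⟨R, hR⟩ := ek_nonsing (x := u) (y := (1 + i) * w * u) hk (by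
      linear_combination (w ^ 2 * u ^ 2) * hi - u * hu2)
    have hR2 := iac_isAt hk hi hR
    have h3 := hR.add hR2 (d16_neg hu0)
    have hl : ((1 + i) * w * u - i * ((1 + i) * w * u)) / (u - -u) = w := by
      rw [sub_neg_eq_add, div_eq_iff (by
        intro h4
        apply hu0
        have : 2 * u = 0 := by linear_combination h4
        simpa using this)]
      linear_combination (-w * u) * hi
    rw [hl] at h3
    refine ⟨R, h₁.ext (d15_mono h3 ?_ ?_)⟩
    · rw [hw]
      ring
    · rw [hz, hu]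
      linear_combination (-w * (w ^ 2 + z)) * hi

open Classical in
theorem one_add_i_zero {F : Type} [Field F] [CharZero F] {k i : F} (hk : k ≠ 0) (hi : i ^ 2 = -1) (R : Ek k) (h : R + iac i R = 0) :
    R = 0 ∨ IsAt R 0 0 := by
  by_cases hR : R = 0
  · exact Or.inl hR
  right
  obtain ⟨x, y, h₁⟩ := exists_isAt hR
  have E := ek_eqn h₁
  by_cases hx : x = 0
  · have hy : y = 0 := by
      have : y ^ 2 = 0 := by rw [E, hx]; ring
      exact pow_eq_zero_iff (two_ne_zero) |>.1 this
    rw [hx, hy] at h₁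
    exact h₁
  · exact absurd h (h₁.add (iac_isAt hk hi h₁) (d16_neg hx)).ne_zero

open Classical in
/-- `al (R + iac R)` is a square. PROOF. `al_add` and `al (iac R) = - al R = (i)² al R` for `R = (x, y)`, `x ≠ 0`; `R = T`: `iac T = T`. -/
theorem al_one_add_i {F : Type} [Field F] [CharZero F] {k i : F} (hk : k ≠ 0) (hi : i ^ 2 = -1) (R : Ek k) : IsSquare (al (R + iac i R)) := by
  by_cases hR : R = 0
  · rw [hR, iac_zero, zero_add, al_zero]
    exact IsSquare.one
  obtain ⟨x, y, h₁⟩ := exists_isAt hR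
  have h₂ := iac_isAt hk hi h₁
  obtain ⟨s, hs, e⟩ := al_add hk R (iac i R)
  by_cases hx : x = 0
  · rw [hx, neg_zero] at h₂
    rw [hx] at h₁
    rw [al_T h₁, al_T h₂] at e
    exact ⟨k * s, by rw [e]; ring⟩
  · rw [al_isAt h₁ hx, al_isAt h₂ (neg_ne_zero.2 hx)] at e
    exact ⟨i * x * s, by rw [e]; linear_combination (-x ^ 2 * s ^ 2) * hi⟩

end Pool.Agent.H60R
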