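import Pool.Agent.Lib.H60R.Defs
import Pool.Agent.Lib.H60R.D04

/-!
# D18 (S/M): the local image of a curve with `k` close to `κ²`

PROOF. `N` from `fourth` (D04). `emb k = (emb κ)² r⁴` with `r ≠ 0` (`r⁴ = emb (k/κ²)`, `va (emb (k/κ²) - 1) = v.valuation (k/κ² - 1)`). `P = 0`: `al = 1`, first alternative. `P = T`: `al P = k = (κ r²)²`: first alternative. `P = (x, y)`, `x ≠ 0`: the point `(x/r², y/r³)` is on
`Y² = X³ + κ² X` (over the completion), `emb x = (emb x / r²) r²`.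
-/

set_option autoImplicit false

open NumberField IsDedekindDomain WeierstrassCurve WeierstrassCurve.Affine
open Pool.Agent.H60.UDef CFT
open scoped WithZero

namespace Pool.Agent.H60R

theorem al_wl {F : Type} [Field F] [NumberField F] (v : Pr F) :
    ∃ N : ℕ, ∀ k κ : F, κ ≠ 0 → k ≠ 0 → v.valuation F (k / κ ^ 2 - 1) < WithZero.exp (-(N : ℤ)) → ∀ P : Ek k, Wl v κ (al P) := by
  obtain ⟨N, hN⟩ := fourth v
  refine ⟨N, fun k κ hκ hk hval P => ?_⟩
  have h1 : va v (emb v (k / κ ^ 2) - 1) < WithZero.exp (-(N : ℤ)) := by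
    have h2 : emb v (k / κ ^ 2) - 1 = emb v (k / κ ^ 2 - 1) := by rw [map_sub, map_one]
    rw [h2, va_emb]
    exact hval
  obtain ⟨r, hr, hr4⟩ := hN _ h1
  have hκ' : emb v κ ≠ 0 := (map_ne_zero (emb v)).2 hκ
  have hk4 : emb v k = emb v κ ^ 2 * r ^ 4 := by
    rw [hr4, ← map_pow, ← map_mul]
    congr 1
    field_simp
  by_cases hP : P = 0
  · left
    rw [hP, al_zero, map_one]
    exact SqE.refl 1
  obtain ⟨x, y, h₁⟩ := exists_isAt hP
  have E := ek_eqn h₁
  by_cases hx : x = 0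
  · left
    rw [hx] at h₁
    rw [al_T h₁]
    exact ⟨emb v κ * r ^ 2, mul_ne_zero hκ' (pow_ne_zero 2 hr), by rw [hk4]; ring⟩
  · right
    rw [al_isAt h₁ hx]
    have hx' : emb v x ≠ 0 := (map_ne_zero (emb v)).2 hx
    refine ⟨emb v x / r ^ 2, emb v y / r ^ 3, div_ne_zero hx' (pow_ne_zero 2 hr), ?_, r, hr, ?_⟩
    · have E' : emb v y ^ 2 = emb v x ^ 3 + emb v k * emb v x := by
        rw [← map_pow, E, map_add, map_pow, map_mul]
      rw [hk4] at E'
      rw [div_pow, E']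
      field_simp
    · field_simp

end Pool.Agent.H60R
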