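import Pool.Agent.Lib.H60R.Defs
import Pool.Agent.Lib.CFT.D2

/-!
# H60R: inputs (sorried here; NEVER import this file in a hand-in; D20, D21 take them as hypotheses)
-/

set_option autoImplicit false

open NumberField IsDedekindDomain WeierstrassCurve WeierstrassCurve.Affine
open Pool.Agent.H60.UDef CFT
open scoped WithZero

namespace Pool.Agent.H60R

/-- Module SZ: two prime elements in one class whose difference is `c X²`. -/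
def PrimeDiff (F : Type) [Field F] [NumberField F] (m : ℕ) : Prop :=
  ∀ (S : Finset (Pr F)) (N : ℕ) (x₀ : F), x₀ ≠ 0 → ∀ c : F, c ≠ 0 →
    ∃ (π₁ π₂ X : F) (p₁ p₂ : Pr F), X ≠ 0 ∧ p₁ ≠ p₂ ∧ p₁ ∉ S ∧ p₂ ∉ S ∧ π₁ ≠ 0 ∧ π₂ ≠ 0 ∧
      Ray S N (π₁ / x₀) ∧ Ray S N (π₂ / x₀) ∧
      (∀ v ∉ S, v ≠ p₁ → od v π₁ = 0) ∧ od p₁ π₁ = 1 ∧ (∀ v ∉ S, v ≠ p₂ → od v π₂ = 0) ∧ od p₂ π₂ = 1 ∧
      π₂ - π₁ = c * X ^ m

open Classical in
/-- Module MW: weak form of the Mordell-Weil theorem. -/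
def MWeil (F : Type) [Field F] : Prop :=
  ∀ k : F, k ≠ 0 → (∃ T : Set (Ek k), T.Finite ∧ ∀ P : Ek k, ∃ t ∈ T, ∃ R : Ek k, P = t + (R + R)) →
    AddGroup.FG (Ek k)

end Pool.Agent.H60R
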