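import Pool.Agent.Lib.H60R.Defs
import Pool.Agent.Lib.CFT.B14
import Pool.Agent.Lib.H60R.In
import Pool.Agent.Lib.H60R.D14
import Pool.Agent.Lib.H60R.D15
import Pool.Agent.Lib.H60R.D16
import Pool.Agent.Lib.H60R.D17
import Pool.Agent.Lib.H60R.D18

/-!
# D19 (M): the curve

PROOF. `S, κ` from `selmer_trivial` (D14), `N` the maximum over `v ∈ S` of the numbers of `al_wl` (D18) plus 1. `x₀ ≠ 0` with `v.valuation (x₀ - κ v) < v.valuation (κ v) exp (-N)` for `v ∈ S`, i.e. `x₀/κ v` close to 1 (`approx`, B14, with a large exponent). `PrimeDiff F 2` with `S, N, x₀, c = 2`: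
`π₁, π₂, X, p₁, p₂`. `k = π₁ π₂`. For `v ∈ S`: `k/κ² = (π₁/x₀)(π₂/x₀)(x₀/κ)²` is close to 1 (products of elements close to 1 are close to 1). `Q = (-i π₂, (1 + i) π₂ X)` is on the curve: `y² = 2 i π₂² X²` and
`x³ + k x = i π₂³ - i π₁ π₂² = i π₂² (π₂ - π₁) = 2 i π₂² X²`. `al Q = -i π₂` has odd order at `p₂` and even order at `p₁`; `al T = k` has odd order at both. Let `P` be a point. Choose `e, f ∈ {0, 1}` such that `P' = P + e T + f Q` has `al P'` of even order at `p₁` and `p₂`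
(`al_add`). For `v ∉ S`, `v ≠ p₁, p₂`: `od v k = 0`, `al_even` (D17). So `LS S (al P')`; `Wl v (κ v) (al P')` for `v ∈ S` by D18. So `al P'` is a square and `P' = R + iac R` (D16).
-/

set_option autoImplicit false

open NumberField IsDedekindDomain WeierstrassCurve WeierstrassCurve.Affine
open Pool.Agent.H60.UDef CFT
open scoped WithZero

namespace Pool.Agent.H60R

open Classical in
theorem d19_par {F : Type} [Field F] [NumberField F] {k : F} (hk : k ≠ 0) (v : Pr F) (P Q : Ek k) :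
    Even (od v (al (P + Q))) ↔ (Even (od v (al P)) ↔ Even (od v (al Q))) := by
  obtain ⟨s, hs, e⟩ := al_add hk P Q
  have h1 := al_ne hk P
  have h2 := al_ne hk Q
  rw [e, od_mul v (mul_ne_zero h1 h2) (pow_ne_zero 2 hs), od_mul v h1 h2, pow_two, od_mul v hs hs, Int.even_add, Int.even_add]
  have h3 : Even (od v s + od v s) := ⟨_, rfl⟩
  tauto

/-- Elements close to 1. -/
def d19_close {F : Type} [Field F] [NumberField F] (v : Pr F) (N : ℕ) (x : F) : Prop :=
  v.valuation F (x - 1) < WithZero.exp (-(N : ℤ))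

theorem d19_close_mul {F : Type} [Field F] [NumberField F] {v : Pr F} {N : ℕ} {x y : F} (hx : d19_close v N x) (hy : d19_close v N y) :
    d19_close v N (x * y) := by
  have hy1 : v.valuation F y = 1 := by
    have h1 : v.valuation F (y - 1) < 1 := lt_of_lt_of_le hy (exp_le_one N)
    have h2 : y = 1 + (y - 1) := by ring
    rw [h2]
    exact Valuation.map_one_add_of_lt _ h1
  have e : x * y - 1 = (x - 1) * y + (y - 1) := by ring
  unfold d19_close
  rw [e]
  refine Valuation.map_add_lt _ ?_ hy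
  rw [map_mul, hy1, mul_one]
  exact hx

theorem d19_od_neg_one {F : Type} [Field F] [NumberField F] (v : Pr F) : od v (-1 : F) = 0 := by
  unfold od
  rw [Valuation.map_neg, map_one, WithZero.log_one, neg_zero]

theorem d19_od_i {F : Type} [Field F] [NumberField F] (v : Pr F) {i : F} (hi : i ^ 2 = -1) : od v i = 0 := by
  have hi0 := d16_i hi
  have h := congrArg (od v) hi
  rw [pow_two, od_mul v hi0 hi0, d19_od_neg_one] at h
  omega

theorem d19_od_neg {F : Type} [Field F] [NumberField F] (v : Pr F) (x : F) : od v (-x) = od v x := by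
  unfold od
  rw [Valuation.map_neg]

open Classical in
theorem curve_exists {F : Type} [Field F] [NumberField F] {i : F} (hi : i ^ 2 = -1) (hreal : ∀ φ : F →+* ℝ, False) (hpd : PrimeDiff F 2) :
    ∃ (k : F) (p₁ p₂ : Pr F) (T Q : Ek k), k ≠ 0 ∧ p₁ ≠ p₂ ∧ IsAt T 0 0 ∧ Odd (od p₁ k) ∧ Odd (od p₂ k) ∧
      Even (od p₁ (al Q)) ∧ Odd (od p₂ (al Q)) ∧
      ∀ P : Ek k, ∃ (e f : ℕ) (R : Ek k), P + e • T + f • Q = R + iac i R := by
  obtain ⟨S, κ, h2, hκ, hsel⟩ := selmer_trivial hi hreal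
  choose Nv hNv using fun v : Pr F => al_wl v
  obtain ⟨N, hN⟩ : ∃ N : ℕ, ∀ v ∈ S, Nv v ≤ N := ⟨S.sup Nv, fun v hv => Finset.le_sup hv⟩
  obtain ⟨M, hM⟩ : ∃ M : ℕ, ∀ v ∈ S, N + (od v (κ v)).natAbs ≤ M :=
    ⟨S.sup (fun v => N + (od v (κ v)).natAbs), fun v hv => Finset.le_sup (f := fun v => N + (od v (κ v)).natAbs) hv⟩
  obtain ⟨x₀, hx₀, hx₁, -⟩ := approx S M κ (fun _ => 1) (fun _ => one_ne_zero)
  obtain ⟨π₁, π₂, X, p₁, p₂, hX, hp, hp1S, hp2S, hπ1, hπ2, hr1, hr2, ho1, ho1', ho2, ho2', hdiff⟩ :=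
    hpd S N x₀ hx₀ 2 two_ne_zero
  have hk : π₁ * π₂ ≠ 0 := mul_ne_zero hπ1 hπ2
  obtain ⟨T, hT⟩ := ek_nonsing (k := π₁ * π₂) (x := 0) (y := 0) hk (by ring)
  obtain ⟨Q, hQ⟩ := ek_nonsing (k := π₁ * π₂) (x := -i * π₂) (y := (1 + i) * π₂ * X) hk (by
    linear_combination (π₂ ^ 2 * X ^ 2 + i * π₂ ^ 3) * hi - (i * π₂ ^ 2) * hdiff)
  have hQ0 : -i * π₂ ≠ 0 := mul_ne_zero (neg_ne_zero.2 (d16_i hi)) hπ2
  have halQ : al Q = -i * π₂ := al_isAt hQ hQ0
  have halT : al T = π₁ * π₂ := al_T hT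
  have hoQ : ∀ v : Pr F, od v (al Q) = od v π₂ := by
    intro v
    rw [halQ, od_mul v (neg_ne_zero.2 (d16_i hi)) hπ2, d19_od_neg, d19_od_i v hi, zero_add]
  have hok1 : od p₁ (π₁ * π₂) = 1 := by
    rw [od_mul p₁ hπ1 hπ2, ho1', ho2 p₁ hp1S hp, add_zero]
  have hok2 : od p₂ (π₁ * π₂) = 1 := by
    rw [od_mul p₂ hπ1 hπ2, ho2', ho1 p₂ hp2S hp.symm, zero_add]
  have hQ1 : Even (od p₁ (al Q)) := by
    rw [hoQ, ho2 p₁ hp1S hp]
    exact Even.zero
  have hQ2 : Odd (od p₂ (al Q)) := by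
    rw [hoQ, ho2']
    exact odd_one
  refine ⟨π₁ * π₂, p₁, p₂, T, Q, hk, hp, hT, by rw [hok1]; exact odd_one, by rw [hok2]; exact odd_one, hQ1, hQ2, ?_⟩
  intro P
  -- the point with even orders at both primes
  obtain ⟨e, f, he1, he2⟩ : ∃ e f : ℕ, Even (od p₁ (al (P + e • T + f • Q))) ∧ Even (od p₂ (al (P + e • T + f • Q))) := by
    have hT1 : ¬ Even (od p₁ (al T)) := by
      rw [halT, hok1]
      decide
    have hT2 : ¬ Even (od p₂ (al T)) := by
      rw [halT, hok2]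
      decide
    have hQ2' : ¬ Even (od p₂ (al Q)) := Int.not_even_iff_odd.2 hQ2
    by_cases h1 : Even (od p₁ (al P))
    · by_cases h3 : Even (od p₂ (al P))
      · exact ⟨0, 0, by rw [zero_smul, zero_smul, add_zero, add_zero]; exact ⟨h1, h3⟩⟩
      · refine ⟨0, 1, ?_⟩
        rw [zero_smul, one_smul, add_zero, d19_par hk, d19_par hk]
        tauto
    · by_cases h3 : Even (od p₂ (al P))
      · refine ⟨1, 1, ?_⟩
        rw [one_smul, one_smul, d19_par hk, d19_par hk, d19_par hk, d19_par hk]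
        tauto
      · refine ⟨1, 0, ?_⟩
        rw [one_smul, zero_smul, add_zero, d19_par hk, d19_par hk]
        tauto
  have hLS : LS S (al (P + e • T + f • Q)) := by
    refine ⟨al_ne hk _, fun v hv => ?_⟩
    by_cases hv1 : v = p₁
    · rw [hv1]
      exact he1
    by_cases hv2 : v = p₂
    · rw [hv2]
      exact he2
    apply al_even hk v
    rw [od_mul v hπ1 hπ2, ho1 v hv hv1, ho2 v hv hv2, add_zero]
  have hW : ∀ v ∈ S, Wl v (κ v) (al (P + e • T + f • Q)) := by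
    intro v hv
    apply hNv v (π₁ * π₂) (κ v) (hκ v) hk
    have hc1 : d19_close v N (π₁ / x₀) := hr1.cong v hv
    have hc2 : d19_close v N (π₂ / x₀) := hr2.cong v hv
    have hc3 : d19_close v N (x₀ / κ v) := by
      unfold d19_close
      have h3 : x₀ / κ v - 1 = (x₀ - κ v) * (κ v)⁻¹ := by
        have := hκ v
        field_simp
      have h4 := hx₁ v hv
      have h5 := hM v hv
      rw [h3, map_mul, map_inv₀, val_eq v (hκ v), ← WithZero.exp_neg, neg_neg]
      have h6 : v.valuation F (x₀ - κ v) * WithZero.exp (od v (κ v)) < WithZero.exp (-(M : ℤ)) * WithZero.exp (od v (κ v)) :=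
        mul_lt_mul_of_pos_right h4 (WithZero.zero_lt_coe _)
      refine lt_of_lt_of_le h6 ?_
      rw [← WithZero.exp_add, WithZero.exp_le_exp]
      omega
    have hc : d19_close v N (π₁ * π₂ / κ v ^ 2) := by
      have h3 : π₁ * π₂ / κ v ^ 2 = (π₁ / x₀) * (π₂ / x₀) * ((x₀ / κ v) * (x₀ / κ v)) := by
        have := hκ v
        field_simp
      rw [h3]
      exact d19_close_mul (d19_close_mul hc1 hc2) (d19_close_mul hc3 hc3)
    refine lt_of_lt_of_le hc ?_
    rw [WithZero.exp_le_exp]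
    have := hN v hv
    omega
  obtain ⟨R, hR⟩ := div_one_add_i hk hi _ (hsel _ hLS hW)
  exact ⟨e, f, R, hR⟩

end Pool.Agent.H60R
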