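import Pool.Agent.Lib.H60R.Defs
import Pool.Agent.Lib.H60R.In
import Pool.Agent.Lib.H60R.D15
import Pool.Agent.Lib.H60R.D16

/-!
# D20 (M): the point `Q` has infinite order

PROOF. Suppose `n • Q = 0`, `n > 0`, `n = 2^a b`, `b` odd, `Q' = b • Q`, `2^a • Q' = 0`, `al Q'` is `al Q` up to a square (`b` odd, `al_add`). With `φ P = P + iac P`: `φ (φ P) = P + 2 iac P + iac (iac P) = 2 iac P`, so `φ^(2a) Q' = (± or iac-power) of 2^a Q' = 0` (induction: `φ^[2a] P = 2^a • iac^[a] P`).
Let `j ≥ 0` be minimal with `φ^[j] Q' = 0`. `j = 0`: `Q' = 0`, `al Q' = 1`, but it has odd order at `p₂`. `j ≥ 1`: `R = φ^[j-1] Q' ≠ 0`, `φ R = 0`, so `R = T` (`one_add_i_zero`, D16). If `j - 1 ≥ 1`, `T = φ (..)`, so `al T = k` is a square (`al_one_add_i`), but `od p₁ k` is odd. If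
`j = 1`: `Q' = T`, so `al Q'`, which has even order at `p₁`, equals `k`, of odd order. Contradiction. (`SqE a b` implies that `od v a`, `od v b` have the same parity.)
-/

set_option autoImplicit false

open NumberField IsDedekindDomain WeierstrassCurve WeierstrassCurve.Affine
open Pool.Agent.H60.UDef CFT
open scoped WithZero

namespace Pool.Agent.H60R

open Classical in
theorem d20_par {F : Type} [Field F] [NumberField F] {k : F} (hk : k ≠ 0) (v : Pr F) (P Q : Ek k) :
    Even (od v (al (P + Q))) ↔ (Even (od v (al P)) ↔ Even (od v (al Q))) := by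
  obtain ⟨s, hs, e⟩ := al_add hk P Q
  have h1 := al_ne hk P
  have h2 := al_ne hk Q
  rw [e, od_mul v (mul_ne_zero h1 h2) (pow_ne_zero 2 hs), od_mul v h1 h2, pow_two, od_mul v hs hs, Int.even_add, Int.even_add]
  have h3 : Even (od v s + od v s) := ⟨_, rfl⟩
  tauto

open Classical in
theorem d20_odd {F : Type} [Field F] [NumberField F] {k : F} (hk : k ≠ 0) (v : Pr F) (Q : Ek k) (b : ℕ) (hb : Odd b) :
    Even (od v (al (b • Q))) ↔ Even (od v (al Q)) := by
  obtain ⟨m, rfl⟩ := hb
  have e : (2 * m + 1) • Q = (m • Q + m • Q) + Q := by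
    rw [add_smul, one_smul, two_mul, add_smul]
  rw [e, d20_par hk, d20_par hk]
  tauto

open Classical in
theorem d20_nil {F : Type} [Field F] [NumberField F] {i : F} (hi : i ^ 2 = -1) {k : F} (hk : k ≠ 0) (a : ℕ) :
    ∀ P : Ek k, 2 ^ a • P = 0 → ∃ j : ℕ, (fun R : Ek k => R + iac i R)^[j] P = 0 := by
  induction a with
  | zero =>
    intro P hP
    refine ⟨0, ?_⟩
    rw [pow_zero, one_smul] at hP
    exact hP
  | succ a ih =>
    intro P hP
    have hc : (P + iac i P) + iac i (P + iac i P) = iac i (P + P) := by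
      rw [iac_add hk hi, iac_add hk hi, iac_iac hk hi]
      abel
    have hn : ∀ (m : ℕ) (R : Ek k), m • iac i R = iac i (m • R) := by
      intro m R
      induction m with
      | zero => rw [zero_smul, zero_smul, iac_zero]
      | succ m ihm => rw [add_smul, one_smul, add_smul, one_smul, iac_add hk hi, ihm]
    have h2 : 2 ^ a • ((P + iac i P) + iac i (P + iac i P)) = 0 := by
      rw [hc, hn]
      have : 2 ^ a • (P + P) = 0 := by
        rw [← two_smul ℕ P, ← mul_smul, ← pow_succ]
        exact hP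
      rw [this, iac_zero]
    obtain ⟨j, hj⟩ := ih _ h2
    refine ⟨j + 2, ?_⟩
    rw [Function.iterate_add_apply]
    exact hj

open Classical in
theorem inf_order {F : Type} [Field F] [NumberField F] {i : F} (hi : i ^ 2 = -1) {k : F} (hk : k ≠ 0) {p₁ p₂ : Pr F} {T Q : Ek k} (hT : IsAt T 0 0)
    (h1 : Odd (od p₁ k)) (h3 : Even (od p₁ (al Q))) (h4 : Odd (od p₂ (al Q))) (n : ℕ) (hn : 0 < n) : n • Q ≠ 0 := by
  intro h0
  obtain ⟨a, b, hb, hab⟩ := Nat.exists_eq_two_pow_mul_odd hn.ne'
  have hQ' : 2 ^ a • (b • Q) = 0 := by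
    rw [← mul_smul, ← hab]
    exact h0
  have hex := d20_nil hi hk a (b • Q) hQ'
  have hj := Nat.find_spec hex
  have hmin : ∀ m < Nat.find hex, ¬ (fun R : Ek k => R + iac i R)^[m] (b • Q) = 0 := fun m hm => Nat.find_min hex hm
  generalize Nat.find hex = j at hj hmin
  rcases j with _ | j
  · have h5 : b • Q = 0 := hj
    have h6 := d20_odd hk p₂ Q b hb
    rw [h5, al_zero, od_one] at h6
    have h7 := h6.1 Even.zero
    exact (Int.not_even_iff_odd.2 h4) h7
  · rw [Function.iterate_succ_apply'] at hj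
    have hne := hmin j (Nat.lt_succ_self j)
    rcases one_add_i_zero hk hi _ hj with h5 | h5
    · exact hne h5
    · rcases j with _ | j
      · have h6 : IsAt (b • Q) 0 0 := h5
        have h7 := d20_odd hk p₁ Q b hb
        rw [al_T h6] at h7
        exact (Int.not_even_iff_odd.2 h1) (h7.2 h3)
      · rw [Function.iterate_succ_apply'] at h5
        have h6 := al_one_add_i hk hi ((fun R : Ek k => R + iac i R)^[j] (b • Q))
        rw [al_T h5] at h6
        obtain ⟨s, hs⟩ := h6
        have hs0 : s ≠ 0 := by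
          rintro rfl
          rw [mul_zero] at hs
          exact hk hs
        rw [hs, od_mul _ hs0 hs0] at h1
        exact (Int.not_even_iff_odd.2 h1) ⟨_, rfl⟩

end Pool.Agent.H60R
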