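import Pool.Agent.Lib.H60R.Defs
import Pool.Agent.Lib.H60R.In
import Pool.Agent.Lib.H60R.D15
import Pool.Agent.Lib.H60R.D16

/-!
# D21 (M): rank one from finite generation

PROOF. `M = Ek k`, `φ P = P + iac P`, an additive endomorphism, `φ φ P = 2 iac P`, so `2 P = φ (φ (-iac P))` (`iac_iac`). From the hypothesis `P ∈ ⟨T, Q⟩ + φ M` for all `P` and `φ T = 0`: `M = ⟨T, Q⟩ + φ(⟨T, Q⟩) + φ φ M`, so `M` is the union of finitely many cosets of `2M`: the finite set `{a T + b Q + c φ Q}` with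
`0 ≤ a, b, c < 2` serves (reduce coefficients mod 2). `MWeil` gives that `M` is finitely generated. Let `N = ` the subgroup generated by `T, Q, iac Q` (stable under `iac` since `iac T = T`, `iac (iac Q) = -Q`). Then `M = N + φ M` (as `e • T + f • Q ∈ N`), so `M = N + φ M = N + φ (N + φ M) = N + 2 M`. By Nakayama
(`Submodule.exists_sub_one_mem_and_smul_eq_zero_of_fg_of_le_smul` for the ℤ-module `M/N` and the ideal `(2)`; or for the finitely generated group `M/N` with `2 (M/N) = M/N`: it is finite of odd order) there is an odd integer `r` with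
`r M ⊆ N`. So `2 r M ⊆ ⟨2T, 2Q, 2 iac Q⟩ ⊆ ⟨Q, iac Q⟩`, as `2 T = 0`. `m = |2 r|`.
-/

set_option autoImplicit false

open NumberField IsDedekindDomain WeierstrassCurve WeierstrassCurve.Affine
open Pool.Agent.H60.UDef CFT
open scoped WithZero

namespace Pool.Agent.H60R

/-- Reduction of a coefficient modulo 2. -/
theorem d21_red {M : Type} [AddCommGroup M] (z : ℤ) (X : M) : ∃ r : Fin 2, ∃ Y : M, z • X = r.val • X + (Y + Y) := by
  refine ⟨⟨(z % 2).toNat, by omega⟩, (z / 2) • X, ?_⟩
  have h1 : z = ((z % 2).toNat : ℤ) + (z / 2 + z / 2) := by omega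
  conv_lhs => rw [h1]
  rw [add_smul, add_smul, natCast_zsmul]

/-- The group theory. -/
theorem d21_grp {M : Type} [AddCommGroup M] (T Q Q' : M) (hT : T + T = 0) (hfg : Module.Finite ℤ M)
    (h : ∀ P : M, ∃ (a b c : ℤ) (S : M), P = a • T + b • Q + c • Q' + (S + S)) :
    ∃ m : ℕ, 0 < m ∧ ∀ P : M, ∃ a b : ℤ, m • P = a • Q + b • Q' := by
  let N : Submodule ℤ M := Submodule.span ℤ {T, Q, Q'}
  obtain ⟨r, hr, hr2⟩ := Submodule.exists_sub_one_mem_and_smul_eq_zero_of_fg_of_le_smul (Ideal.span {(2 : ℤ)})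
    (⊤ : Submodule ℤ (M ⧸ N)) Module.Finite.fg_top (by
      intro x _
      obtain ⟨P, rfl⟩ := Submodule.mkQ_surjective N x
      obtain ⟨a, b, c, S, hS⟩ := h P
      have h1 : N.mkQ P = (2 : ℤ) • N.mkQ S := by
        rw [← map_smul, ← sub_eq_zero, ← map_sub, Submodule.mkQ_apply, Submodule.Quotient.mk_eq_zero]
        have h2 : P - (2 : ℤ) • S = a • T + b • Q + c • Q' := by
          rw [hS, two_smul]
          abel
        rw [h2]
        refine N.add_mem (N.add_mem (N.smul_mem _ ?_) (N.smul_mem _ ?_)) (N.smul_mem _ ?_)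
        · exact Submodule.subset_span (by simp)
        · exact Submodule.subset_span (by simp)
        · exact Submodule.subset_span (by simp)
      rw [h1]
      exact Submodule.smul_mem_smul (Ideal.mem_span_singleton_self 2) trivial)
  rw [Ideal.mem_span_singleton] at hr
  have hr0 : r ≠ 0 := by
    rintro rfl
    omega
  have key : ∀ P : M, ∃ a b : ℤ, (2 * r) • P = a • Q + b • Q' := by
    intro P
    have h1 := hr2 (N.mkQ P) trivial
    rw [← map_smul, Submodule.mkQ_apply, Submodule.Quotient.mk_eq_zero] at h1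
    obtain ⟨a, b, c, hc⟩ := Submodule.mem_span_triple.1 h1
    refine ⟨2 * b, 2 * c, ?_⟩
    rw [mul_smul, ← hc, smul_add, smul_add, ← mul_smul, ← mul_smul, ← mul_smul]
    have h2 : (2 * a) • T = 0 := by
      rw [mul_comm, mul_smul, two_smul, hT, smul_zero]
    rw [h2, zero_add]
  refine ⟨(2 * r).natAbs, by omega, fun P => ?_⟩
  obtain ⟨a, b, hab⟩ := key P
  rcases Int.natAbs_eq (2 * r) with h1 | h1
  · refine ⟨a, b, ?_⟩
    rw [← natCast_zsmul, ← h1]
    exact hab
  · refine ⟨-a, -b, ?_⟩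
    have h2 : (((2 * r).natAbs : ℕ) : ℤ) = -(2 * r) := by omega
    rw [← natCast_zsmul, h2, neg_smul, hab, neg_smul, neg_smul]
    abel

open Classical in
theorem rank_one {F : Type} [Field F] [NumberField F] {i : F} (hi : i ^ 2 = -1) {k : F} (hk : k ≠ 0) {T Q : Ek k} (hT : IsAt T 0 0) (hmw : MWeil F)
    (h : ∀ P : Ek k, ∃ (e f : ℕ) (R : Ek k), P + e • T + f • Q = R + iac i R) :
    ∃ m : ℕ, 0 < m ∧ ∀ P : Ek k, ∃ a b : ℤ, m • P = a • Q + b • iac i Q := by
  have hTT : T + T = 0 := hT.dbl_zero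
  have hTi : iac i T = T := (iac_isAt hk hi hT).ext (d15_mono hT (by ring) (by ring))
  let ψ : Ek k →+ Ek k :=
    { toFun := iac i
      map_zero' := iac_zero i
      map_add' := iac_add hk hi }
  have hψ : ∀ P, iac i P = ψ P := fun _ => rfl
  have key : ∀ P : Ek k, ∃ (a b c : ℤ) (S : Ek k), P = a • T + b • Q + c • iac i Q + (S + S) := by
    intro P
    obtain ⟨e, f, R, hR⟩ := h P
    obtain ⟨e', f', R', hR'⟩ := h R
    refine ⟨-e, -f - f', -f', iac i R', ?_⟩
    have h1 : P = R + iac i R - e • T - f • Q := by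
      rw [← hR]
      abel
    have h2 : R = R' + iac i R' - e' • T - f' • Q := by
      rw [← hR']
      abel
    have h3 : iac i R = iac i R' - R' - e' • T - f' • iac i Q := by
      conv_lhs => rw [h2]
      rw [hψ, map_sub, map_sub, map_add, map_nsmul, map_nsmul, ← hψ, ← hψ, ← hψ, ← hψ, iac_iac hk hi, hTi]
      abel
    have h4 : e' • T + e' • T = 0 := by
      rw [← smul_add, hTT, smul_zero]
    have h5 : R + iac i R = (iac i R' + iac i R') - f' • Q - f' • iac i Q := by
      rw [h3]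
      conv_lhs => rw [h2]
      have h6 : R' + iac i R' - e' • T - f' • Q + (iac i R' - R' - e' • T - f' • iac i Q) =
          (iac i R' + iac i R') - f' • Q - f' • iac i Q - (e' • T + e' • T) := by abel
      rw [h6, h4, sub_zero]
    rw [h1, h5]
    simp only [neg_smul, sub_smul, natCast_zsmul]
    abel
  have hfg : AddGroup.FG (Ek k) := by
    apply hmw k hk
    refine ⟨Set.range (fun p : Fin 2 × Fin 2 × Fin 2 => p.1.val • T + p.2.1.val • Q + p.2.2.val • iac i Q), Set.finite_range _, ?_⟩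
    intro P
    obtain ⟨a, b, c, S, hS⟩ := key P
    obtain ⟨r1, Y1, h1⟩ := d21_red a T
    obtain ⟨r2, Y2, h2⟩ := d21_red b Q
    obtain ⟨r3, Y3, h3⟩ := d21_red c (iac i Q)
    refine ⟨_, ⟨(r1, r2, r3), rfl⟩, Y1 + Y2 + Y3 + S, ?_⟩
    rw [hS, h1, h2, h3]
    show _ = r1.val • T + r2.val • Q + r3.val • iac i Q + _
    abel
  have hfin : Module.Finite ℤ (Ek k) := Module.Finite.iff_addGroup_fg.2 hfg
  exact d21_grp T Q (iac i Q) hTT hfin key

end Pool.Agent.H60R
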