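import Pool.Agent.Lib.H60R.Defs
import Pool.Agent.Lib.H60R.In
import Pool.Agent.Lib.H60R.D19
import Pool.Agent.Lib.H60R.D20
import Pool.Agent.Lib.H60R.D21

/-!
# D22: assembly: for every number field containing `i` there is a curve `y² = x³ + k x` of `Z[i]`-rank exactly one.
-/

set_option autoImplicit false

open NumberField IsDedekindDomain WeierstrassCurve WeierstrassCurve.Affine
open Pool.Agent.H60.UDef CFT
open scoped WithZero

namespace Pool.Agent.H60R

theorem no_real {F : Type} [Field F] {i : F} (hi : i ^ 2 = -1) (φ : F →+* ℝ) : False := by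
  have h := congrArg φ hi
  rw [map_pow, map_neg, map_one] at h
  nlinarith [sq_nonneg (φ i)]

open Classical in
theorem cm_rank_one (F : Type) [Field F] [NumberField F] (hpd : PrimeDiff F 2) (hmw : MWeil F) {i : F} (hi : i ^ 2 = -1) :
    ∃ k : F, k ≠ 0 ∧ ∃ Q : Ek k, (∀ n : ℕ, 0 < n → n • Q ≠ 0) ∧
      ∃ m : ℕ, 0 < m ∧ ∀ P : Ek k, ∃ a b : ℤ, m • P = a • Q + b • iac i Q := by
  obtain ⟨k, p₁, p₂, T, Q, hk, -, hT, h1, -, h3, h4, h5⟩ := curve_exists hi (no_real hi) hpd
  exact ⟨k, hk, Q, inf_order hi hk hT h1 h3 h4, rank_one hi hk hT hmw h5⟩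

end Pool.Agent.H60R
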