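import Mathlib
import Pool.Agent.Lib.H60R.D22
import Pool.Agent.Lib.H19MW.MWeil

/-!
# H60R: the final theorem of module D without the Mordell-Weil hypothesis

`cm_rank_one'`: F a number field containing i; from PrimeDiff F 2 (module SZ) there is k such that y^2 = x^3 + k x has Z[i]-rank one over F.
-/

set_option autoImplicit false

open NumberField IsDedekindDomain WeierstrassCurve WeierstrassCurve.Affine
open Pool.Agent.H60.UDef CFT

namespace Pool.Agent.H60R

theorem mweil (F : Type) [Field F] [NumberField F] : MWeil F := H19MW.mweil F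

open Classical in
theorem cm_rank_one' (F : Type) [Field F] [NumberField F] (hpd : PrimeDiff F 2) {i : F} (hi : i ^ 2 = -1) :
    ∃ k : F, k ≠ 0 ∧ ∃ Q : Ek k, (∀ n : ℕ, 0 < n → n • Q ≠ 0) ∧
      ∃ m : ℕ, 0 < m ∧ ∀ P : Ek k, ∃ a b : ℤ, m • P = a • Q + b • iac i Q :=
  cm_rank_one F hpd (mweil F) hi

end Pool.Agent.H60R
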