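import Mathlib
import Pool.Agent.Lib.H60R.Main
import Pool.Agent.Lib.SZ.P6

/-!
# H60R: unconditional form: every number field containing i has a curve y^2 = x^3 + k x of Z[i]-rank one
-/

set_option autoImplicit false

open NumberField IsDedekindDomain WeierstrassCurve WeierstrassCurve.Affine
open Pool.Agent.H60.UDef CFT

namespace Pool.Agent.H60R

open Classical in
theorem cm_rank_one_all (F : Type) [Field F] [NumberField F] {i : F} (hi : i ^ 2 = -1) :
    ∃ k : F, k ≠ 0 ∧ ∃ Q : Ek k, (∀ n : ℕ, 0 < n → n • Q ≠ 0) ∧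
      ∃ m : ℕ, 0 < m ∧ ∀ P : Ek k, ∃ a b : ℤ, m • P = a • Q + b • iac i Q :=
  cm_rank_one' F (Pool.Agent.SZ.prDiff_all F 2 (Or.inl rfl)) hi

end Pool.Agent.H60R
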